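import Pool.Agent.Helper31.FX.Final

/-! Project FX: helper83's homotopy remark.  Only the values `be w` at the elements `w ∉ A` above
some element of `A` matter: on the down-set `V` of all `x` which are neither in `A` nor above an
element of `A` replace `f` by `be`, and put `V` into `A`. -/

set_option autoImplicit false

universe u

namespace Pool.Agent.Helper31.FX

/-- **Main theorem, sharper form.** -/
theorem main_cover4 (P : Type u) [PartialOrder P]
    (hfin : ∃ n : ℕ, ∀ c : Finset P, IsChain (· ≤ ·) (c : Set P) → c.card ≤ n) (s : P)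
    (f : P → P) (hf : Monotone f)
    (A : Set P) (hA : ∀ x ∈ A, ∃ z : P, IsLUB ({s, f x} : Set P) z)
    (be : P → P) (hbe : ∀ w, w ∉ A → be w ≤ s ∧ be w ≤ f w)
    (hbem : ∀ v w, v ∉ A → w ∉ A → v ≤ w → be v ≤ be w)
    (hj : ∀ x w : P, x < w → x ∈ A → w ∉ A → be w < s → ∃ z : P, IsLUB ({be w, f x} : Set P) z)
    (ht : CoverTame {e | ∃ w, w ∉ A ∧ (∃ x ∈ A, x < w) ∧ be w < s ∧ be w = e}) :
    ∃ x : P, f x = x := by
  classical
  let V : Set P := {x | x ∉ A ∧ ∀ y ∈ A, ¬ y < x}
  have hV : ∀ x y, x ≤ y → y ∈ V → x ∈ V := by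
    intro x y hxy hy
    refine ⟨fun hx => ?_, fun z hz hzx => hy.2 z hz (hzx.trans_le hxy)⟩
    rcases hxy.eq_or_lt with h | h
    · exact hy.1 (h ▸ hx)
    · exact hy.2 x hx h
  let f' : P → P := fun x => if x ∈ V then be x else f x
  have e1 : ∀ x, x ∈ V → f' x = be x := fun x hx => if_pos hx
  have e2 : ∀ x, x ∉ V → f' x = f x := fun x hx => if_neg hx
  have hle : ∀ x, f' x ≤ f x := by
    intro x
    by_cases hx : x ∈ V
    · rw [e1 x hx]
      exact (hbe x hx.1).2
    · rw [e2 x hx]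
  have hf' : Monotone f' := by
    intro x y hxy
    by_cases hy : y ∈ V
    · rw [e1 y hy, e1 x (hV x y hxy hy)]
      exact hbem x y (hV x y hxy hy).1 hy.1 hxy
    · rw [e2 y hy]
      exact (hle x).trans (hf hxy)
  obtain ⟨x, hx⟩ : ∃ x : P, f' x = x := by
    refine main_cover3 P hfin s f' hf' (A ∪ V) ?_ be ?_ ?_ ?_ (coverTame_mono ?_ ht)
    · rintro x (hx | hx)
      · rw [e2 x fun h => h.1 hx]
        exact hA x hx
      · rw [e1 x hx]
        refine ⟨s, ?_, fun z hz => hz (by simp)⟩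
        rintro z (rfl | rfl)
        · exact le_rfl
        · exact (hbe x hx.1).1
    · intro w hw
      have hwA : w ∉ A := fun h => hw (Or.inl h)
      have hwV : w ∉ V := fun h => hw (Or.inr h)
      rw [e2 w hwV]
      exact hbe w hwA
    · intro v w hv hw hvw
      exact hbem v w (fun h => hv (Or.inl h)) (fun h => hw (Or.inl h)) hvw
    · intro x w hxw hx hw hws
      have hwA : w ∉ A := fun h => hw (Or.inl h)
      rcases hx with hx | hx
      · rw [e2 x fun h => h.1 hx]
        exact hj x w hxw hx hwA hws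
      · rw [e1 x hx]
        refine ⟨be w, ?_, fun z hz => hz (by simp)⟩
        rintro z (rfl | rfl)
        · exact le_rfl
        · exact hbem x w hx.1 hwA hxw.le
    · rintro e ⟨w, hw, hws, hwe⟩
      have hwA : w ∉ A := fun h => hw (Or.inl h)
      refine ⟨w, hwA, ?_, hws, hwe⟩
      by_contra hno
      push Not at hno
      exact hw (Or.inr ⟨hwA, hno⟩)
  obtain ⟨n, hn⟩ := hfin
  refine fix_of_le n hn f hf x ?_
  have := hle x
  rwa [hx] at this

/-- The order dual of `main_cover4`. -/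
theorem main_cover4_dual (P : Type u) [PartialOrder P]
    (hfin : ∃ n : ℕ, ∀ c : Finset P, IsChain (· ≤ ·) (c : Set P) → c.card ≤ n) (s : P)
    (f : P → P) (hf : Monotone f)
    (A : Set P) (hA : ∀ x ∈ A, ∃ z : P, IsGLB ({s, f x} : Set P) z)
    (be : P → P) (hbe : ∀ w, w ∉ A → s ≤ be w ∧ f w ≤ be w)
    (hbem : ∀ v w, v ∉ A → w ∉ A → v ≤ w → be v ≤ be w)
    (hj : ∀ x w : P, w < x → x ∈ A → w ∉ A → s < be w → ∃ z : P, IsGLB ({be w, f x} : Set P) z)
    (ht : CoverTame {e | ∃ w, w ∉ A ∧ (∃ x ∈ A, w < x) ∧ s < be w ∧ be w = e}) :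
    ∃ x : P, f x = x := by
  obtain ⟨n, hn⟩ := hfin
  exact main_cover4 Pᵒᵈ ⟨n, fun c hc => hn c (by
    intro a ha b hb hab
    exact (hc ha hb hab).symm)⟩ (OrderDual.toDual s)
    (fun x => OrderDual.toDual (f (OrderDual.ofDual x))) (fun a b hab => hf hab)
    (OrderDual.ofDual ⁻¹' A) (fun x hx => hA (OrderDual.ofDual x) hx)
    (fun x => OrderDual.toDual (be (OrderDual.ofDual x)))
    (fun w hw => hbe (OrderDual.ofDual w) hw)
    (fun v w h1 h2 h3 => hbem (OrderDual.ofDual w) (OrderDual.ofDual v) h2 h1 h3)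
    (fun x w h1 h2 h3 h4 => hj (OrderDual.ofDual x) (OrderDual.ofDual w) h1 h2 h3 h4)
    (coverTame_dual _ ht)

/-- Exactly the hypotheses of the problem; only the values `s ∧ f w < s` at the critical elements
`w` have to be tame: those above some `x` such that `s ∧ f x` does not exist and below (or equal
to) some `y` such that `s ∨ f y` does not exist. -/
theorem main_critical (P : Type u) [PartialOrder P]
    (hfin : ∃ n : ℕ, ∀ c : Finset P, IsChain (· ≤ ·) (c : Set P) → c.card ≤ n) (s : P)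
    (h1 : ∀ x : P, (∃ z : P, IsLUB ({s, x} : Set P) z) ∨ (∃ z : P, IsGLB ({s, x} : Set P) z))
    (h2 : ∀ x y : P, x < y → (¬ ∃ z : P, IsGLB ({s, x} : Set P) z) →
      ∀ m : P, IsGLB ({s, y} : Set P) m → ∃ z : P, IsLUB ({m, x} : Set P) z)
    (f : P → P) (hf : Monotone f)
    (ht : CoverTame {m : P | m < s ∧ ∃ w, IsGLB ({s, f w} : Set P) m ∧
      (∃ x, x < w ∧ ¬ ∃ z : P, IsGLB ({s, f x} : Set P) z) ∧
      (∃ y, w ≤ y ∧ ¬ ∃ z : P, IsLUB ({s, f y} : Set P) z)}) : ∃ x : P, f x = x := by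
  classical
  let me : P → P := fun w => if h : ∃ z : P, IsGLB ({s, f w} : Set P) z then h.choose else s
  have hme : ∀ w, (∃ z : P, IsGLB ({s, f w} : Set P) z) → IsGLB ({s, f w} : Set P) (me w) := by
    intro w h
    simp only [me, dif_pos h]
    exact h.choose_spec
  let U : Set P := {x | ∀ y, x ≤ y → ∃ z : P, IsLUB ({s, f y} : Set P) z}
  let B : Set P := {x | ¬ ∃ z : P, IsGLB ({s, f x} : Set P) z}
  have hW : ∀ w, w ∉ B ∪ U → ∃ z : P, IsGLB ({s, f w} : Set P) z := by
    intro w hw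
    by_contra h
    exact hw (Or.inl h)
  have hU : ∀ x w, x ≤ w → x ∈ U → w ∈ U := fun x w hxw hx y hy => hx y (hxw.trans hy)
  refine main_cover4 P hfin s f hf (B ∪ U) ?_ me ?_ ?_ ?_ (coverTame_mono ?_ ht)
  · rintro x (hx | hx)
    · exact (h1 (f x)).resolve_right hx
    · exact hx x le_rfl
  · intro w hw
    have h := hme w (hW w hw)
    exact ⟨h.1 (by simp), h.1 (by simp)⟩
  · intro v w hv hw hvw
    have h3 := hme v (hW v hv)
    have h4 := hme w (hW w hw)
    refine h4.2 ?_
    rintro z (rfl | rfl)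
    · exact h3.1 (by simp)
    · exact (h3.1 (by simp)).trans (hf hvw)
  · intro x w hxw hx hw _
    rcases hx with hx | hx
    · refine h2 (f x) (f w) (lt_of_le_of_ne (hf hxw.le) ?_) hx (me w) (hme w (hW w hw))
      intro e
      apply hx
      rw [e]
      exact hW w hw
    · exact absurd (Or.inr (hU x w hxw.le hx)) hw
  · rintro e ⟨w, hw, ⟨x, hx, hxw⟩, hs, rfl⟩
    refine ⟨hs, w, hme w (hW w hw), ?_, ?_⟩
    · rcases hx with hx | hx
      · exact ⟨x, hxw, hx⟩
      · exact absurd (Or.inr (hU x w hxw.le hx)) hw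
    · by_contra hno
      push Not at hno
      exact hw (Or.inr hno)

end Pool.Agent.Helper31.FX
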