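import Pool.Agent.Helper31.FX.Ray

/-! Project FX: no label function if `E` has no ray of bounded diameter. -/

set_option autoImplicit false

namespace Pool.Agent.Helper31.FX

/-- `E` contains a ray (injective sequence with comparable consecutive members) all of whose
members are joined to one element by comparability paths in `E` of a fixed length. -/
def HasBoundedRay {P : Type*} [PartialOrder P] (E : Set P) : Prop :=
  ∃ v : ℕ → P, Function.Injective v ∧ (∀ k, v k ∈ E) ∧ (∀ k, v k ≤ v (k + 1) ∨ v (k + 1) ≤ v k) ∧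
    ∃ (c : P) (n : ℕ), ∀ i, ∃ p : ℕ → P, p 0 = c ∧ p n = v i ∧ (∀ j ≤ n, p j ∈ E) ∧
      ∀ j < n, p j ≤ p (j + 1) ∨ p (j + 1) ≤ p j

/-- The tuple `δ` with the entries from `i` on replaced by `s`. -/
def cutTop {P : Type*} {r : ℕ} (s : P) (δ : Fin r → P) (i : ℕ) : Fin r → P :=
  fun j => if (j : ℕ) < i then δ j else s

theorem no_labelling_bray {P : Type*} [PartialOrder P] (r : ℕ) (s : P) (E : Set P)
    (hE : ∀ d ∈ E, d < s) (lam : (Fin r → P) → P)
    (h1 : ∀ δ, Rel δ δ → (∀ j, δ j ∈ insert s E) → lam δ ∈ E)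
    (h2 : ∀ δ δ', Rel δ δ' → Rel δ δ → Rel δ' δ' → (∀ j, δ j ∈ insert s E) →
      (∀ j, δ' j ∈ insert s E) → lam δ ≤ lam δ' ∨ lam δ' ≤ lam δ)
    (h3 : ∀ δ, Rel δ δ → (∀ j, δ j ∈ insert s E) → ∀ M ∈ E, (∀ j, δ j ≤ M) → ¬ M ≤ lam δ)
    (hray : ¬ HasBoundedRay E) : False := by
  classical
  let B : Set P := {d | ∃ δ, Rel δ δ ∧ (∀ j, δ j ∈ insert s E) ∧ lam δ = d}
  have hBE : ∀ b ∈ B, b ∈ E := by
    rintro b ⟨δ, hδ, hδZ, rfl⟩
    exact h1 δ hδ hδZ
  have hsub : ∀ x, x ∈ insert s B → x ∈ insert s E := by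
    rintro x (rfl | hx)
    · exact Or.inl rfl
    · exact Or.inr (hBE x hx)
  have hle : ∀ x ∈ insert s E, x ≤ s := by
    rintro x (rfl | hx)
    · exact le_rfl
    · exact (hE x hx).le
  -- properties of the cut tuples
  have hcv : ∀ δ : Fin r → P, (∀ j, δ j ∈ insert s E) → ∀ i j, cutTop s δ i j ∈ insert s E := by
    intro δ hδ i j
    unfold cutTop
    split_ifs
    · exact hδ j
    · exact Or.inl rfl
  have hcr : ∀ δ : Fin r → P, Rel δ δ → (∀ j, δ j ∈ insert s E) → ∀ i,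
      Rel (cutTop s δ (i + 1)) (cutTop s δ i) := by
    intro δ hδ hδZ i
    constructor
    · intro j
      unfold cutTop
      by_cases h : (j : ℕ) < i
      · rw [if_pos h, if_pos (by omega)]
      · rw [if_neg h]
        split_ifs
        · exact hle _ (hδZ j)
        · exact le_rfl
    · intro j k hjk
      have hjk' : (j : ℕ) < (k : ℕ) := hjk
      unfold cutTop
      by_cases h : (k : ℕ) < i + 1
      · rw [if_pos h, if_pos (by omega)]
        exact hδ.2 j k hjk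
      · rw [if_neg h]
        split_ifs
        · exact hle _ (hδZ j)
        · exact le_rfl
  have hcc : ∀ δ : Fin r → P, Rel δ δ → (∀ j, δ j ∈ insert s E) → ∀ i,
      Rel (cutTop s δ i) (cutTop s δ i) := by
    intro δ hδ hδZ i
    refine ⟨fun j => le_rfl, ?_⟩
    intro j k hjk
    have hjk' : (j : ℕ) < (k : ℕ) := hjk
    unfold cutTop
    by_cases h : (k : ℕ) < i
    · rw [if_pos h, if_pos (by omega)]
      exact hδ.2 j k hjk
    · rw [if_neg h]
      split_ifs
      · exact hle _ (hδZ j)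
      · exact le_rfl
  refine no_labelling_ray r s B (fun b hb => hE b (hBE b hb)) lam ?_ ?_ ?_ ?_
  · intro δ hδ hδZ
    exact ⟨δ, hδ, fun j => hsub _ (hδZ j), rfl⟩
  · intro δ δ' hr h h' hz hz'
    exact h2 δ δ' hr h h' (fun j => hsub _ (hz j)) (fun j => hsub _ (hz' j))
  · intro δ hδ hδZ M hM hM'
    exact h3 δ hδ (fun j => hsub _ (hδZ j)) M (hBE M hM) hM'
  · rintro ⟨v, hv, hvB, hvc⟩
    apply hray
    refine ⟨v, hv, fun k => hBE _ (hvB k), hvc, lam (fun _ => s), r, ?_⟩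
    intro i
    obtain ⟨δ, hδ, hδZ, hl⟩ := hvB i
    refine ⟨fun j => lam (cutTop s δ j), ?_, ?_, ?_, ?_⟩
    · congr 1
    · show lam (cutTop s δ r) = v i
      rw [← hl]
      congr 1
      funext j
      unfold cutTop
      rw [if_pos j.2]
    · intro j _
      exact h1 _ (hcc δ hδ hδZ j) (hcv δ hδZ j)
    · intro j _
      exact (h2 _ _ (hcr δ hδ hδZ j) (hcc δ hδ hδZ (j + 1)) (hcc δ hδ hδZ j)
        (hcv δ hδZ (j + 1)) (hcv δ hδZ j)).symm

/-- A locally finite set has no ray of bounded diameter. -/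
theorem not_hasBoundedRay_of_finite {P : Type*} [PartialOrder P] (E : Set P)
    (hloc : ∀ d ∈ E, {e | e ∈ E ∧ (e ≤ d ∨ d ≤ e)}.Finite) : ¬ HasBoundedRay E := by
  rintro ⟨v, hv, hvE, -, c, n, hp⟩
  have hfin : ∀ k, {x | ∃ p : ℕ → P, p 0 = c ∧ p k = x ∧ (∀ j ≤ k, p j ∈ E) ∧
      ∀ j < k, p j ≤ p (j + 1) ∨ p (j + 1) ≤ p j}.Finite := by
    intro k
    induction k with
    | zero =>
      refine (Set.finite_singleton c).subset ?_
      rintro x ⟨p, h0, hx, -, -⟩
      exact hx.symm.trans h0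
    | succ k ih =>
      have hu : (⋃ d ∈ {x | ∃ p : ℕ → P, p 0 = c ∧ p k = x ∧ (∀ j ≤ k, p j ∈ E) ∧
          ∀ j < k, p j ≤ p (j + 1) ∨ p (j + 1) ≤ p j}, {e | e ∈ E ∧ (e ≤ d ∨ d ≤ e)}).Finite := by
        refine ih.biUnion ?_
        rintro d ⟨p, -, rfl, hE, -⟩
        exact hloc _ (hE k le_rfl)
      refine hu.subset ?_
      rintro x ⟨p, h0, rfl, hE, hc⟩
      rw [Set.mem_iUnion₂]
      refine ⟨p k, ⟨p, h0, rfl, fun j hj => hE j (by omega), fun j hj => hc j (by omega)⟩,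
        hE (k + 1) le_rfl, ?_⟩
      exact (hc k (by omega)).symm
  have h := (hfin n).subset (show Set.range v ⊆ _ from by
    rintro _ ⟨i, rfl⟩
    exact hp i)
  exact Set.infinite_range_of_injective hv h

/-- A set without rays has no ray of bounded diameter. -/
theorem not_hasBoundedRay_of_rayless {P : Type*} [PartialOrder P] (E : Set P)
    (h : ¬ ∃ v : ℕ → P, Function.Injective v ∧ (∀ k, v k ∈ E) ∧
      ∀ k, v k ≤ v (k + 1) ∨ v (k + 1) ≤ v k) : ¬ HasBoundedRay E := by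
  rintro ⟨v, hv, hvE, hc, -⟩
  exact h ⟨v, hv, hvE, hc⟩

end Pool.Agent.Helper31.FX
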