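import Pool.Agent.Helper31.FX.Defs

/-! Project FX: identities for ordered chains mod 2. -/

set_option autoImplicit false

namespace Pool.Agent.Helper31.FX

theorem lc_add_self {V : Type*} (c : LC V) : c + c = 0 := by
  have h : c + c = (2 : ZMod 2) • c := by
    rw [two_smul]
  rw [h]
  have h2 : (2 : ZMod 2) = 0 := by decide
  rw [h2, zero_smul]

theorem D_single {V : Type*} (l : List V) : D (Finsupp.single l 1) = bd l := by
  unfold D
  rw [Finsupp.linearCombination_single, one_smul]

theorem cone_single {V : Type*} (v : V) (l : List V) :
    cone v (Finsupp.single l (1 : ZMod 2)) = Finsupp.single (v :: l) 1 := by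
  unfold cone
  rw [Finsupp.lmapDomain_apply, Finsupp.mapDomain_single]

theorem mp_single {V : Type*} (a : V → V) (l : List V) :
    mp a (Finsupp.single l (1 : ZMod 2)) = Finsupp.single (l.map a) 1 := by
  unfold mp
  rw [Finsupp.lmapDomain_apply, Finsupp.mapDomain_single]

theorem PR_single {V : Type*} (a b : V → V) (l : List V) :
    PR a b (Finsupp.single l (1 : ZMod 2)) = pr a b l := by
  unfold PR
  rw [Finsupp.linearCombination_single, one_smul]

/-- Equality of linear maps on chains can be tested on lists. -/
theorem lc_ext {V : Type*} {M : Type*} [AddCommMonoid M] [Module (ZMod 2) M]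
    {f g : LC V →ₗ[ZMod 2] M}
    (h : ∀ l : List V, f (Finsupp.single l 1) = g (Finsupp.single l 1)) (c : LC V) :
    f c = g c := by
  have : f = g := by
    apply Finsupp.lhom_ext'
    intro l
    apply LinearMap.ext_ring
    simpa using h l
  rw [this]

theorem D_cone {V : Type*} (v : V) (c : LC V) : D (cone v c) = c + cone v (D c) := by
  have key := lc_ext (f := D.comp (cone v)) (g := LinearMap.id + (cone v).comp D) (fun l => by
    simp only [LinearMap.comp_apply, LinearMap.add_apply, LinearMap.id_apply]
    rw [cone_single, D_single, D_single]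
    rfl) c
  simpa only [LinearMap.comp_apply, LinearMap.add_apply, LinearMap.id_apply] using key

theorem mp_cone {V : Type*} (a : V → V) (v : V) (c : LC V) :
    mp a (cone v c) = cone (a v) (mp a c) := by
  have key := lc_ext (f := (mp a).comp (cone v)) (g := (cone (a v)).comp (mp a)) (fun l => by
    simp only [LinearMap.comp_apply]
    rw [cone_single, mp_single, mp_single, cone_single]
    rfl) c
  simpa only [LinearMap.comp_apply] using key

theorem bd_map {V : Type*} (a : V → V) (l : List V) : bd (l.map a) = mp a (bd l) := by
  induction l with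
  | nil => simp [bd]
  | cons v t ih =>
    rw [List.map_cons]
    show Finsupp.single (t.map a) 1 + cone (a v) (bd (t.map a))
      = mp a (Finsupp.single t 1 + cone v (bd t))
    rw [map_add, mp_single, mp_cone, ih]

theorem D_mp {V : Type*} (a : V → V) (c : LC V) : D (mp a c) = mp a (D c) := by
  have key := lc_ext (f := D.comp (mp a)) (g := (mp a).comp D) (fun l => by
    simp only [LinearMap.comp_apply]
    rw [mp_single, D_single, D_single, bd_map]) c
  simpa only [LinearMap.comp_apply] using key

theorem PR_cone {V : Type*} (a b : V → V) (v : V) (c : LC V) :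
    PR a b (cone v c) = cone (a v) (cone (b v) (mp b c)) + cone (a v) (PR a b c) := by
  have key := lc_ext (f := (PR a b).comp (cone v))
    (g := (cone (a v)).comp ((cone (b v)).comp (mp b)) + (cone (a v)).comp (PR a b))
    (fun l => by
      simp only [LinearMap.comp_apply, LinearMap.add_apply]
      rw [cone_single, PR_single, PR_single, mp_single, cone_single, cone_single]
      rfl) c
  simpa only [LinearMap.comp_apply, LinearMap.add_apply] using key

theorem D_pr {V : Type*} (a b : V → V) (l : List V) :
    D (pr a b l) + PR a b (bd l) = Finsupp.single (l.map a) 1 + Finsupp.single (l.map b) 1 := by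
  induction l with
  | nil =>
    simp only [pr, bd, map_zero, List.map_nil, lc_add_self, add_zero]
  | cons v t ih =>
    have h1 : pr a b (v :: t)
        = cone (a v) (cone (b v) (Finsupp.single (t.map b) 1)) + cone (a v) (pr a b t) := by
      rw [cone_single, cone_single]
      rfl
    have h2 : bd (v :: t) = Finsupp.single t 1 + cone v (bd t) := rfl
    rw [h1, h2, map_add, map_add, PR_single, PR_cone, D_cone, D_cone, D_cone, D_single, bd_map,
      List.map_cons, List.map_cons, ← cone_single (a v), ← cone_single (b v), map_add]
    have ih' : PR a b (bd t)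
        = D (pr a b t) + (Finsupp.single (t.map a) 1 + Finsupp.single (t.map b) 1) := by
      rw [← ih, ← add_assoc, lc_add_self, zero_add]
    rw [ih', map_add, map_add]
    generalize cone (b v) (Finsupp.single (t.map b) 1) = x1
    generalize cone (a v) (Finsupp.single (t.map b) 1) = x2
    generalize cone (a v) (cone (b v) (mp b (bd t))) = x3
    generalize cone (a v) (D (pr a b t)) = x4
    generalize cone (a v) (Finsupp.single (t.map a) 1) = x5
    generalize pr a b t = x6
    have e2 := lc_add_self x2
    have e3 := lc_add_self x3
    have e4 := lc_add_self x4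
    have e6 := lc_add_self x6
    calc x1 + (x2 + x3) + (x6 + x4) + (x6 + (x3 + (x4 + (x5 + x2))))
        = x5 + x1 + (x2 + x2) + (x3 + x3) + (x4 + x4) + (x6 + x6) := by abel
      _ = x5 + x1 := by rw [e2, e3, e4, e6]; simp

/-- Prism identity. -/
theorem D_PR {V : Type*} (a b : V → V) (c : LC V) :
    D (PR a b c) + PR a b (D c) = mp a c + mp b c := by
  have key := lc_ext (f := D.comp (PR a b) + (PR a b).comp D) (g := mp a + mp b)
    (fun l => by
      simp only [LinearMap.comp_apply, LinearMap.add_apply]
      rw [PR_single, D_single, mp_single, mp_single, D_pr]) c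
  simpa only [LinearMap.comp_apply, LinearMap.add_apply] using key

theorem mp_id {V : Type*} (c : LC V) : mp id c = c := by
  unfold mp
  rw [Finsupp.lmapDomain_apply]
  have : (List.map (id : V → V)) = id := by
    funext l
    simp
  rw [this, Finsupp.mapDomain_id]

/-- `HH` is a contraction. -/
theorem D_HH {V : Type*} (g : ℕ → V → V) (r : ℕ) (w : V) (hg : g 0 = id) (c : LC V) :
    D (HH g r w c) + HH g r w (D c) = c := by
  have hs : ∀ r : ℕ, D ((∑ i ∈ Finset.range r, PR (g (i + 1)) (g i)) c)
      + (∑ i ∈ Finset.range r, PR (g (i + 1)) (g i)) (D c) = mp (g r) c + c := by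
    intro r
    induction r with
    | zero =>
      simp only [Finset.range_zero, Finset.sum_empty, LinearMap.zero_apply, map_zero, hg, mp_id,
        lc_add_self, add_zero]
    | succ n ih =>
      rw [Finset.sum_range_succ, LinearMap.add_apply, LinearMap.add_apply, map_add]
      have h1 := D_PR (g (n + 1)) (g n) c
      calc _ = (D ((∑ i ∈ Finset.range n, PR (g (i + 1)) (g i)) c)
            + (∑ i ∈ Finset.range n, PR (g (i + 1)) (g i)) (D c))
            + (D (PR (g (n + 1)) (g n) c) + PR (g (n + 1)) (g n) (D c)) := by abel
        _ = mp (g (n + 1)) c + c + (mp (g n) c + mp (g n) c) := by rw [ih, h1]; abel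
        _ = mp (g (n + 1)) c + c := by rw [lc_add_self, add_zero]
  unfold HH
  rw [LinearMap.add_apply, LinearMap.add_apply, LinearMap.comp_apply, LinearMap.comp_apply,
    map_add, D_cone, D_mp]
  have h2 := hs r
  calc _ = (D ((∑ i ∈ Finset.range r, PR (g (i + 1)) (g i)) c)
        + (∑ i ∈ Finset.range r, PR (g (i + 1)) (g i)) (D c))
        + (mp (g r) c + (cone w (mp (g r) (D c)) + cone w (mp (g r) (D c)))) := by abel
    _ = c + (mp (g r) c + mp (g r) c) := by rw [h2, lc_add_self]; abel
    _ = c := by rw [lc_add_self, add_zero]

end Pool.Agent.Helper31.FX
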