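import Mathlib

/-!
MP_3976d4_co, project FX (helper31): definitions.

`LC V`: mod 2 chains of ordered simplices (lists of vertices, the empty list included);
`bd`, `D`: boundary; `cone`, `mp`, `pr`, `PR`, `HH`: cone, induced map, prism, contraction;
`FC P`, `dF`, `J`, `nf`, `N`: mod 2 chains of finite sets and the map from ordered to unordered
chains; `Rel`, `Good`: interleaved tuples (edgewise subdivision).
-/

set_option autoImplicit false

namespace Pool.Agent.Helper31.FX

/-- Mod 2 chains of lists. -/
abbrev LC (V : Type*) := List V →₀ ZMod 2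

/-- `c ↦ v :: c`. -/
noncomputable def cone {V : Type*} (v : V) : LC V →ₗ[ZMod 2] LC V :=
  Finsupp.lmapDomain (ZMod 2) (ZMod 2) (List.cons v)

/-- Boundary of a list: the sum of all lists with one entry deleted. -/
noncomputable def bd {V : Type*} : List V → LC V
  | [] => 0
  | v :: t => Finsupp.single t 1 + cone v (bd t)

/-- The boundary operator. -/
noncomputable def D {V : Type*} : LC V →ₗ[ZMod 2] LC V :=
  Finsupp.linearCombination (ZMod 2) bd

/-- The chain map induced by a map of vertices. -/
noncomputable def mp {V : Type*} (a : V → V) : LC V →ₗ[ZMod 2] LC V :=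
  Finsupp.lmapDomain (ZMod 2) (ZMod 2) (List.map a)

/-- The prism of a list between the maps `a` and `b`. -/
noncomputable def pr {V : Type*} (a b : V → V) : List V → LC V
  | [] => 0
  | v :: t => Finsupp.single (a v :: b v :: t.map b) 1 + cone (a v) (pr a b t)

/-- The prism operator. -/
noncomputable def PR {V : Type*} (a b : V → V) : LC V →ₗ[ZMod 2] LC V :=
  Finsupp.linearCombination (ZMod 2) (pr a b)

/-- The contraction given by the maps `g 0, ..., g r` and the cone point `w`. -/
noncomputable def HH {V : Type*} (g : ℕ → V → V) (r : ℕ) (w : V) : LC V →ₗ[ZMod 2] LC V :=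
  (∑ i ∈ Finset.range r, PR (g (i + 1)) (g i)) + (cone w).comp (mp (g r))

/-- Mod 2 chains of finite sets. -/
abbrev FC (P : Type*) := Finset P →₀ ZMod 2

/-- The boundary operator for finite sets. -/
noncomputable def dF {P : Type*} [DecidableEq P] : FC P →ₗ[ZMod 2] FC P :=
  Finsupp.linearCombination (ZMod 2)
    (fun σ : Finset P => ∑ x ∈ σ, Finsupp.single (σ.erase x) (1 : ZMod 2))

/-- `σ ↦ insert p σ`, or `0` if `p ∈ σ`. -/
noncomputable def J {P : Type*} [DecidableEq P] (p : P) : FC P →ₗ[ZMod 2] FC P :=
  Finsupp.linearCombination (ZMod 2)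
    (fun σ : Finset P => if p ∈ σ then 0 else Finsupp.single (insert p σ) (1 : ZMod 2))

/-- A list of vertices with labels `lam`: the set of its labels, or `0` if two labels agree. -/
noncomputable def nf {V P : Type*} [DecidableEq P] (lam : V → P) : List V → FC P
  | [] => Finsupp.single ∅ 1
  | v :: t => J (lam v) (nf lam t)

/-- The linear extension of `nf`. -/
noncomputable def N {V P : Type*} [DecidableEq P] (lam : V → P) : LC V →ₗ[ZMod 2] FC P :=
  Finsupp.linearCombination (ZMod 2) (nf lam)

/-- `v ≤ w ≤` shift of `v`. `Rel v v` says that `v` is nondecreasing. -/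
def Rel {P : Type*} [PartialOrder P] {r : ℕ} (v w : Fin r → P) : Prop :=
  (∀ j, v j ≤ w j) ∧ ∀ j k, j < k → w j ≤ v k

/-- The list `l` of tuples is a simplex of the edgewise subdivision of `σ`. -/
def Good {P : Type*} [PartialOrder P] {r : ℕ} (σ : Finset P) (l : List (Fin r → P)) : Prop :=
  l.Pairwise Rel ∧ ∀ v ∈ l, Rel v v ∧ ∀ j, v j ∈ σ

end Pool.Agent.Helper31.FX
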