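import Pool.Agent.Helper31.FX.Defs

/-! Project FX: identities for unordered chains mod 2. -/

set_option autoImplicit false

namespace Pool.Agent.Helper31.FX

theorem dF_single' {P : Type*} [DecidableEq P] (σ : Finset P) :
    dF (Finsupp.single σ (1 : ZMod 2)) =
      ∑ x ∈ σ, Finsupp.single (σ.erase x) (1 : ZMod 2) := by
  rw [dF, Finsupp.linearCombination_single, one_smul]

theorem J_single' {P : Type*} [DecidableEq P] (p : P) (σ : Finset P) :
    J p (Finsupp.single σ (1 : ZMod 2)) =
      if p ∈ σ then 0 else Finsupp.single (insert p σ) (1 : ZMod 2) := by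
  rw [J, Finsupp.linearCombination_single, one_smul]

theorem N_single' {V P : Type*} [DecidableEq P] (lam : V → P) (l : List V) :
    N lam (Finsupp.single l (1 : ZMod 2)) = nf lam l := by
  rw [N, Finsupp.linearCombination_single, one_smul]

theorem lin_ext {A M : Type*} [AddCommGroup M] [Module (ZMod 2) M]
    (f g : (A →₀ ZMod 2) →ₗ[ZMod 2] M)
    (h : ∀ a, f (Finsupp.single a 1) = g (Finsupp.single a 1)) (c : A →₀ ZMod 2) : f c = g c := by
  have : f = g := by
    apply Finsupp.lhom_ext
    intro a b
    have hb : Finsupp.single a b = b • Finsupp.single a (1 : ZMod 2) := by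
      rw [Finsupp.smul_single, smul_eq_mul, mul_one]
    rw [hb, map_smul, map_smul, h]
  rw [this]

theorem add_self_FC {A : Type*} (c : A →₀ ZMod 2) : c + c = 0 := by
  ext a
  simp only [Finsupp.add_apply, Finsupp.zero_apply]
  exact CharTwo.add_self_eq_zero _

theorem dF_J {P : Type*} [DecidableEq P] (p : P) (c : FC P) :
    dF (J p c) = c + J p (dF c) := by
  refine lin_ext (dF.comp (J p)) (LinearMap.id + (J p).comp dF) (fun σ => ?_) c
  rw [LinearMap.comp_apply, LinearMap.add_apply, LinearMap.id_apply, LinearMap.comp_apply,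
    J_single', dF_single', map_sum]
  by_cases hp : p ∈ σ
  · rw [if_pos hp, map_zero]
    have h1 : ∑ x ∈ σ, J p (Finsupp.single (σ.erase x) (1 : ZMod 2)) =
        Finsupp.single σ (1 : ZMod 2) := by
      rw [Finset.sum_eq_single p]
      · rw [J_single', if_neg (Finset.notMem_erase p σ), Finset.insert_erase hp]
      · intro x _ hx
        rw [J_single', if_pos (Finset.mem_erase.2 ⟨fun h => hx h.symm, hp⟩)]
      · intro h
        exact absurd hp h
    rw [h1, add_self_FC]
  · rw [if_neg hp, dF_single', Finset.sum_insert hp, Finset.erase_insert hp]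
    congr 1
    refine Finset.sum_congr rfl (fun x hx => ?_)
    have hxp : x ≠ p := fun h => hp (h ▸ hx)
    rw [J_single', if_neg (fun h => hp (Finset.mem_of_mem_erase h)),
      Finset.erase_insert_of_ne (fun h => hxp h.symm)]

theorem N_cone' {V P : Type*} [DecidableEq P] (lam : V → P) (v : V) (c : LC V) :
    N lam (cone v c) = J (lam v) (N lam c) := by
  refine lin_ext ((N lam).comp (cone v)) ((J (lam v)).comp (N lam)) (fun l => ?_) c
  rw [LinearMap.comp_apply, LinearMap.comp_apply, cone, Finsupp.lmapDomain_apply,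
    Finsupp.mapDomain_single, N_single', N_single', nf]

theorem N_bd' {V P : Type*} [DecidableEq P] (lam : V → P) (l : List V) :
    N lam (bd l) = dF (nf lam l) := by
  induction l with
  | nil =>
    rw [bd, map_zero, nf, dF_single', Finset.sum_empty]
  | cons v t ih =>
    rw [bd, map_add, N_single', N_cone', ih, nf, dF_J]

/-- `N lam` is a chain map. -/
theorem N_D {V P : Type*} [DecidableEq P] (lam : V → P) (c : LC V) :
    N lam (D c) = dF (N lam c) := by
  refine lin_ext ((N lam).comp D) (dF.comp (N lam)) (fun l => ?_) c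
  rw [LinearMap.comp_apply, LinearMap.comp_apply, D, Finsupp.linearCombination_single, one_smul,
    N_single', N_bd']

theorem J_support' {P : Type*} [DecidableEq P] (p : P) (c : FC P) (ν : Finset P)
    (h : J p c ν ≠ 0) : ∃ σ, c σ ≠ 0 ∧ ν = insert p σ := by
  by_contra hcon
  apply h
  rw [J, Finsupp.linearCombination_apply, Finsupp.sum, Finsupp.finsetSum_apply]
  refine Finset.sum_eq_zero (fun σ hσ => ?_)
  rw [Finsupp.smul_apply]
  by_cases hp : p ∈ σ
  · rw [if_pos hp, Finsupp.zero_apply, smul_zero]
  · rw [if_neg hp, Finsupp.single_apply, if_neg, smul_zero]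
    intro he
    exact hcon ⟨σ, Finsupp.mem_support_iff.1 hσ, he.symm⟩

/-- The only possible term of `nf lam l` is the set of labels of `l`. -/
theorem nf_support {V P : Type*} [DecidableEq P] (lam : V → P) (l : List V) (ν : Finset P)
    (h : nf lam l ν ≠ 0) : ν = (l.map lam).toFinset := by
  induction l generalizing ν with
  | nil =>
    rw [nf, Finsupp.single_apply] at h
    by_cases he : (∅ : Finset P) = ν
    · rw [← he]; rfl
    · rw [if_neg he] at h
      exact absurd rfl h
  | cons v t ih =>
    rw [nf] at h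
    obtain ⟨σ, hσ, rfl⟩ := J_support' _ _ _ h
    rw [ih σ hσ, List.map_cons, List.toFinset_cons]

theorem N_support {V P : Type*} [DecidableEq P] (lam : V → P) (c : LC V) (ν : Finset P)
    (h : N lam c ν ≠ 0) : ∃ l, c l ≠ 0 ∧ ν = (l.map lam).toFinset := by
  by_contra hcon
  apply h
  rw [N, Finsupp.linearCombination_apply, Finsupp.sum, Finsupp.finsetSum_apply]
  refine Finset.sum_eq_zero (fun l hl => ?_)
  rw [Finsupp.smul_apply]
  by_cases hn : nf lam l ν = 0
  · rw [hn, smul_zero]
  · exact absurd ⟨l, Finsupp.mem_support_iff.1 hl, nf_support lam l ν hn⟩ hcon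

/-- The coefficient of `ν` in the boundary of a chain supported on subsets of `B`. -/
theorem dF_apply {P : Type*} [DecidableEq P] (B : Finset P) (c : FC P)
    (hc : ∀ τ, c τ ≠ 0 → τ ⊆ B) (ν : Finset P) :
    dF c ν = ∑ y ∈ B with y ∉ ν, c (insert y ν) := by
  have hR : ∀ y, c (insert y ν) = ∑ τ ∈ c.support, if τ = insert y ν then c τ else 0 := by
    intro y
    rw [Finset.sum_ite_eq' c.support (insert y ν) (fun τ => c τ)]
    by_cases hy : insert y ν ∈ c.support
    · rw [if_pos hy]
    · rw [if_neg hy]
      exact Finsupp.notMem_support_iff.1 hy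
  rw [Finset.sum_congr rfl (fun y _ => hR y), Finset.sum_comm, dF,
    Finsupp.linearCombination_apply, Finsupp.sum, Finsupp.finsetSum_apply]
  refine Finset.sum_congr rfl (fun τ hτ => ?_)
  have hτB : τ ⊆ B := hc τ (Finsupp.mem_support_iff.1 hτ)
  rw [Finsupp.smul_apply, Finsupp.finsetSum_apply, smul_eq_mul]
  have h1 : ∀ x ∈ τ, (Finsupp.single (τ.erase x) (1 : ZMod 2)) ν =
      if τ.erase x = ν then 1 else 0 := fun x _ => Finsupp.single_apply
  rw [Finset.sum_congr rfl h1, ← Finset.sum_filter, ← Finset.sum_filter, Finset.mul_sum]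
  have h2 : τ.filter (fun x => τ.erase x = ν) =
      (B.filter (fun y => y ∉ ν)).filter (fun y => τ = insert y ν) := by
    ext x
    simp only [Finset.mem_filter]
    constructor
    · rintro ⟨hx, he⟩
      refine ⟨⟨hτB hx, ?_⟩, ?_⟩
      · rw [← he]; exact Finset.notMem_erase x τ
      · rw [← he, Finset.insert_erase hx]
    · rintro ⟨⟨_, hx⟩, he⟩
      refine ⟨he ▸ Finset.mem_insert_self x ν, ?_⟩
      rw [he, Finset.erase_insert hx]
  rw [h2]
  exact Finset.sum_congr rfl (fun _ _ => mul_one _)

end Pool.Agent.Helper31.FX
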