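import Pool.Agent.Helper73.FX.Lattice3
import Pool.Agent.Helper9.FX.Cover2
import Pool.Agent.Helper98.HX.CoverThick

/-! Project FX: the final form, helper73's selection version with helper9's coverings, and its
corollaries. -/

set_option autoImplicit false

universe u

namespace Pool.Agent.Helper31.FX

/-- Coverings restrict. -/
theorem coverTame_mono {P : Type u} [PartialOrder P] {E F : Set P} (hEF : E ⊆ F)
    (h : CoverTame F) : CoverTame E := by
  obtain ⟨X, hX, q, hq, hr⟩ := h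
  refine ⟨{x : X // q x ∈ E}, inferInstance, fun x => q x.1, ?_, ?_⟩
  · refine ⟨fun x => x.2, ?_, fun x y hxy => hq.mono _ _ hxy, ?_, ?_⟩
    · intro e he
      obtain ⟨x, hx⟩ := hq.onto e (hEF he)
      exact ⟨⟨x, hx ▸ he⟩, hx⟩
    · intro x e he hle
      obtain ⟨y, ⟨hy1, hy2⟩, hu⟩ := hq.up x.1 e (hEF he) hle
      exact ⟨⟨y, hy2 ▸ he⟩, ⟨hy1, hy2⟩, fun z hz => Subtype.ext (hu z.1 ⟨hz.1, hz.2⟩)⟩
    · intro x e he hle
      obtain ⟨y, ⟨hy1, hy2⟩, hu⟩ := hq.down x.1 e (hEF he) hle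
      exact ⟨⟨y, hy2 ▸ he⟩, ⟨hy1, hy2⟩, fun z hz => Subtype.ext (hu z.1 ⟨hz.1, hz.2⟩)⟩
  · rintro ⟨v, hv, -, hc, c, n, hp⟩
    apply hr
    refine ⟨fun k => (v k).1, fun i j hij => hv (Subtype.ext hij), fun _ => Set.mem_univ _,
      fun k => hc k, c.1, n, fun i => ?_⟩
    obtain ⟨p, h0, hn, -, hpc⟩ := hp i
    exact ⟨fun j => (p j).1, congrArg Subtype.val h0, congrArg Subtype.val hn,
      fun _ _ => Set.mem_univ _, fun j hj => hpc j hj⟩

/-- **Main theorem.** -/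
theorem main_cover3 (P : Type u) [PartialOrder P]
    (hfin : ∃ n : ℕ, ∀ c : Finset P, IsChain (· ≤ ·) (c : Set P) → c.card ≤ n) (s : P)
    (f : P → P) (hf : Monotone f)
    (A : Set P) (hA : ∀ x ∈ A, ∃ z : P, IsLUB ({s, f x} : Set P) z)
    (be : P → P) (hbe : ∀ w, w ∉ A → be w ≤ s ∧ be w ≤ f w)
    (hbem : ∀ v w, v ∉ A → w ∉ A → v ≤ w → be v ≤ be w)
    (hj : ∀ x w : P, x < w → x ∈ A → w ∉ A → be w < s → ∃ z : P, IsLUB ({be w, f x} : Set P) z)
    (ht : CoverTame {e | ∃ w, w ∉ A ∧ be w < s ∧ be w = e}) : ∃ x : P, f x = x := by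
  obtain ⟨X, hX, q, hq, hr⟩ := ht
  by_contra hno
  obtain ⟨r, lam, h1, h2, h3⟩ := Helper73.FX.exists_label3 P hfin s f hf hno A hA be
    (fun w hw => (hbe w hw).1) (fun w hw => (hbe w hw).2) hbem hj _ rfl
  refine Helper9.FX.no_labelling_cover r s _ ?_ lam h1 h2 h3 q hq hr
  rintro d ⟨w, -, h2, h3⟩
  exact h3 ▸ h2

/-- The order dual of `main_cover3`. -/
theorem main_cover3_dual (P : Type u) [PartialOrder P]
    (hfin : ∃ n : ℕ, ∀ c : Finset P, IsChain (· ≤ ·) (c : Set P) → c.card ≤ n) (s : P)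
    (f : P → P) (hf : Monotone f)
    (A : Set P) (hA : ∀ x ∈ A, ∃ z : P, IsGLB ({s, f x} : Set P) z)
    (be : P → P) (hbe : ∀ w, w ∉ A → s ≤ be w ∧ f w ≤ be w)
    (hbem : ∀ v w, v ∉ A → w ∉ A → v ≤ w → be v ≤ be w)
    (hj : ∀ x w : P, w < x → x ∈ A → w ∉ A → s < be w → ∃ z : P, IsGLB ({be w, f x} : Set P) z)
    (ht : CoverTame {e | ∃ w, w ∉ A ∧ s < be w ∧ be w = e}) : ∃ x : P, f x = x := by
  obtain ⟨n, hn⟩ := hfin
  exact main_cover3 Pᵒᵈ ⟨n, fun c hc => hn c (by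
    intro a ha b hb hab
    exact (hc ha hb hab).symm)⟩ (OrderDual.toDual s)
    (fun x => OrderDual.toDual (f (OrderDual.ofDual x))) (fun a b hab => hf hab)
    (OrderDual.ofDual ⁻¹' A) (fun x hx => hA (OrderDual.ofDual x) hx)
    (fun x => OrderDual.toDual (be (OrderDual.ofDual x)))
    (fun w hw => hbe (OrderDual.ofDual w) hw)
    (fun v w h1 h2 h3 => hbem (OrderDual.ofDual w) (OrderDual.ofDual v) h2 h1 h3)
    (fun x w h1 h2 h3 h4 => hj (OrderDual.ofDual x) (OrderDual.ofDual w) h1 h2 h3 h4)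
    (coverTame_dual _ ht)

/-- The form with a set `E` of elements below `s`. -/
theorem main_cover_set (P : Type u) [PartialOrder P]
    (hfin : ∃ n : ℕ, ∀ c : Finset P, IsChain (· ≤ ·) (c : Set P) → c.card ≤ n) (s : P)
    (hi : ∀ x : P, (∃ z : P, IsLUB ({s, x} : Set P) z) ∨ (∃ z : P, IsGLB ({s, x} : Set P) z))
    (E : Set P) (hE : ∀ d ∈ E, d < s)
    (hgr : ∀ m : P, m < s → ∃ e, IsGreatest {d | d ∈ E ∧ d ≤ m} e)
    (hj : ∀ x y m e : P, x < y → (¬ ∃ z : P, IsGLB ({s, x} : Set P) z) →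
      IsGLB ({s, y} : Set P) m → m < s → IsGreatest {d | d ∈ E ∧ d ≤ m} e →
      ∃ z : P, IsLUB ({e, x} : Set P) z)
    (ht : CoverTame E)
    (f : P → P) (hf : Monotone f) : ∃ x : P, f x = x :=
  Helper9.FX.main_tame P hfin s hi E hE hgr hj (Or.inl ht) f hf

/-- Exactly the hypotheses of the problem, and `{d | d < s}` tame: for instance finite, locally
finite, without three-element chains. -/
theorem main_cover_special (P : Type u) [PartialOrder P]
    (hfin : ∃ n : ℕ, ∀ c : Finset P, IsChain (· ≤ ·) (c : Set P) → c.card ≤ n) (s : P)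
    (h1 : ∀ x : P, (∃ z : P, IsLUB ({s, x} : Set P) z) ∨ (∃ z : P, IsGLB ({s, x} : Set P) z))
    (h2 : ∀ x y : P, x < y → (¬ ∃ z : P, IsGLB ({s, x} : Set P) z) →
      ∀ m : P, IsGLB ({s, y} : Set P) m → ∃ z : P, IsLUB ({m, x} : Set P) z)
    (ht : CoverTame {d : P | d < s})
    (f : P → P) (hf : Monotone f) : ∃ x : P, f x = x := by
  refine main_cover_set P hfin s h1 {d : P | d < s} (fun d hd => hd) ?_ ?_ ht f hf
  · intro m hm
    exact ⟨m, ⟨hm, le_rfl⟩, fun d hd => hd.2⟩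
  · intro x y m e hxy hx hm hms he
    have e1 : e = m := le_antisymm he.1.2 (he.2 ⟨hms, le_rfl⟩)
    rw [e1]
    exact h2 x y hxy hx m hm

/-- The same for one map: only the values `s ∧ f w` have to be tame. -/
theorem main_cover_values (P : Type u) [PartialOrder P]
    (hfin : ∃ n : ℕ, ∀ c : Finset P, IsChain (· ≤ ·) (c : Set P) → c.card ≤ n) (s : P)
    (h1 : ∀ x : P, (∃ z : P, IsLUB ({s, x} : Set P) z) ∨ (∃ z : P, IsGLB ({s, x} : Set P) z))
    (h2 : ∀ x y : P, x < y → (¬ ∃ z : P, IsGLB ({s, x} : Set P) z) →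
      ∀ m : P, IsGLB ({s, y} : Set P) m → ∃ z : P, IsLUB ({m, x} : Set P) z)
    (f : P → P) (hf : Monotone f)
    (ht : CoverTame {m : P | m < s ∧ ∃ w, IsGLB ({s, f w} : Set P) m}) : ∃ x : P, f x = x := by
  classical
  let me : P → P := fun w => if h : ∃ z : P, IsGLB ({s, f w} : Set P) z then h.choose else s
  have hme : ∀ w, (∃ z : P, IsGLB ({s, f w} : Set P) z) → IsGLB ({s, f w} : Set P) (me w) := by
    intro w h
    simp only [me, dif_pos h]
    exact h.choose_spec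
  have hW : ∀ w, w ∉ {x | ¬ ∃ z : P, IsGLB ({s, f x} : Set P) z} →
      ∃ z : P, IsGLB ({s, f w} : Set P) z := by
    intro w hw
    simpa using hw
  refine main_cover3 P hfin s f hf {x | ¬ ∃ z : P, IsGLB ({s, f x} : Set P) z} ?_ me ?_ ?_ ?_
    (coverTame_mono ?_ ht)
  · intro x hx
    exact (h1 (f x)).resolve_right hx
  · intro w hw
    have h := hme w (hW w hw)
    exact ⟨h.1 (by simp), h.1 (by simp)⟩
  · intro v w hv hw hvw
    have h3 := hme v (hW v hv)
    have h4 := hme w (hW w hw)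
    refine h4.2 ?_
    rintro z (rfl | rfl)
    · exact h3.1 (by simp)
    · exact (h3.1 (by simp)).trans (hf hvw)
  · intro x w hxw hx hw _
    refine h2 (f x) (f w) (lt_of_le_of_ne (hf hxw.le) ?_) hx (me w) (hme w (hW w hw))
    intro e
    apply hx
    rw [e]
    exact hW w hw
  · rintro e ⟨w, hw, hs, rfl⟩
    exact ⟨hs, w, hme w (hW w hw)⟩

theorem coverTame_of_finite {P : Type u} [PartialOrder P] (E : Set P) (h : E.Finite) :
    CoverTame E :=
  coverTame_of_not_hasBoundedRay E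
    (not_hasBoundedRay_of_finite E fun _ _ => h.subset fun _ he => he.1)

/-- Q1 if only finitely many elements lie strictly below `s`. -/
theorem main_finite_below (P : Type u) [PartialOrder P]
    (hfin : ∃ n : ℕ, ∀ c : Finset P, IsChain (· ≤ ·) (c : Set P) → c.card ≤ n) (s : P)
    (h1 : ∀ x : P, (∃ z : P, IsLUB ({s, x} : Set P) z) ∨ (∃ z : P, IsGLB ({s, x} : Set P) z))
    (h2 : ∀ x y : P, x < y → (¬ ∃ z : P, IsGLB ({s, x} : Set P) z) →
      ∀ m : P, IsGLB ({s, y} : Set P) m → ∃ z : P, IsLUB ({m, x} : Set P) z)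
    (ht : {d : P | d < s}.Finite)
    (f : P → P) (hf : Monotone f) : ∃ x : P, f x = x :=
  main_cover_special P hfin s h1 h2 (coverTame_of_finite _ ht) f hf

/-- Q1 if no three-element chain lies strictly below `s`. -/
theorem main_no_three (P : Type u) [PartialOrder P]
    (hfin : ∃ n : ℕ, ∀ c : Finset P, IsChain (· ≤ ·) (c : Set P) → c.card ≤ n) (s : P)
    (h1 : ∀ x : P, (∃ z : P, IsLUB ({s, x} : Set P) z) ∨ (∃ z : P, IsGLB ({s, x} : Set P) z))
    (h2 : ∀ x y : P, x < y → (¬ ∃ z : P, IsGLB ({s, x} : Set P) z) →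
      ∀ m : P, IsGLB ({s, y} : Set P) m → ∃ z : P, IsLUB ({m, x} : Set P) z)
    (ht : ∀ a b c : P, a < b → b < c → ¬ c < s)
    (f : P → P) (hf : Monotone f) : ∃ x : P, f x = x :=
  main_cover_special P hfin s h1 h2
    (Helper98.HX.coverTame_of_no_three _ fun a _ b _ c hc hab hbc => ht a b c hab hbc hc) f hf

end Pool.Agent.Helper31.FX
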