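import Pool.Agent.Helper31.FX.Defs
import Pool.Agent.Helper44.GB.Graph

/-! Project FX: no labelling exists if `E` has no chain of three elements. -/

set_option autoImplicit false

namespace Pool.Agent.Helper31.FX

/-- `⊤` is read as `s` -/
def topVal {P : Type*} (s : P) (E : Set P) : WithTop E → P
  | none => s
  | some d => d.1

theorem topVal_mem {P : Type*} (s : P) (E : Set P) (x : WithTop E) :
    topVal s E x ∈ insert s E := by
  match x with
  | none => exact Set.mem_insert _ _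
  | some d => exact Set.mem_insert_of_mem _ d.2

theorem topVal_mono {P : Type*} [PartialOrder P] (s : P) (E : Set P) (hE : ∀ d ∈ E, d < s)
    {x y : WithTop E} (h : x ≤ y) : topVal s E x ≤ topVal s E y := by
  match x, y with
  | none, none => exact le_rfl
  | none, some d =>
    exact absurd h (by
      intro h
      have h1 : (⊤ : WithTop E) ≤ ((d : E) : WithTop E) := h
      simp at h1)
  | some d, none => exact (hE d.1 d.2).le
  | some d, some e =>
    have h1 : ((d : E) : WithTop E) ≤ ((e : E) : WithTop E) := h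
    rw [WithTop.coe_le_coe] at h1
    exact h1

theorem no_labelling_graph {P : Type*} [PartialOrder P] (r : ℕ) (s : P) (E : Set P)
    (hE : ∀ d ∈ E, d < s) (lam : (Fin r → P) → P)
    (h1 : ∀ δ, Rel δ δ → (∀ j, δ j ∈ insert s E) → lam δ ∈ E)
    (h2 : ∀ δ δ', Rel δ δ' → Rel δ δ → Rel δ' δ' → (∀ j, δ j ∈ insert s E) →
      (∀ j, δ' j ∈ insert s E) → lam δ ≤ lam δ' ∨ lam δ' ≤ lam δ)
    (h3 : ∀ δ, Rel δ δ → (∀ j, δ j ∈ insert s E) → ∀ M ∈ E, (∀ j, δ j ≤ M) → ¬ M ≤ lam δ)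
    (hch : ∀ a ∈ E, ∀ b ∈ E, ∀ c ∈ E, a < b → ¬ b < c) : False := by
  classical
  have hs : lam (fun _ => s) ∈ E :=
    h1 _ ⟨fun _ => le_rfl, fun _ _ _ => le_rfl⟩ (fun _ => Set.mem_insert _ _)
  -- the tuple of a sequence
  let tp : (ℕ → WithTop E) → Fin r → P := fun δ j => topVal s E (δ j)
  have hmem : ∀ δ j, tp δ j ∈ insert s E := fun δ j => topVal_mem s E _
  have hrel : ∀ δ δ' : ℕ → WithTop E, Helper44.GB.V r δ → (∀ j, δ j ≤ δ' j) →
      (∀ j, δ' j ≤ δ (j + 1)) → Rel (tp δ) (tp δ') := by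
    intro δ δ' hV k1 k2
    refine ⟨fun j => topVal_mono s E hE (k1 j), fun j k hjk => topVal_mono s E hE ?_⟩
    exact (k2 j).trans (hV.1 (Nat.succ_le_of_lt hjk))
  have hself : ∀ δ : ℕ → WithTop E, Helper44.GB.V r δ → Rel (tp δ) (tp δ) := fun δ hV =>
    hrel δ δ hV (fun _ => le_rfl) (fun j => hV.1 (Nat.le_succ j))
  let lab : (ℕ → WithTop E) → E := fun δ =>
    if h : lam (tp δ) ∈ E then ⟨lam (tp δ), h⟩ else ⟨_, hs⟩
  have hlab : ∀ δ : ℕ → WithTop E, Helper44.GB.V r δ → (lab δ : P) = lam (tp δ) := by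
    intro δ hV
    have h := h1 (tp δ) (hself δ hV) (hmem δ)
    simp only [lab, dif_pos h]
  refine Helper44.GB.no_labelling (D := E) (r := r) (lam := lab) ?_ ?_ ?_
  · intro δ δ' hV hV' k1 k2
    have h := h2 (tp δ) (tp δ') (hrel δ δ' hV k1 k2) (hself δ hV) (hself δ' hV') (hmem δ) (hmem δ')
    rw [← hlab δ hV, ← hlab δ' hV'] at h
    exact h
  · intro a b c hab hbc
    exact hch a.1 a.2 b.1 b.2 c.1 c.2 hab hbc
  · intro δ hV d hd hle
    refine h3 (tp δ) (hself δ hV) (hmem δ) d.1 d.2 (fun j => ?_) ?_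
    · exact topVal_mono s E hE (hd j j.2)
    · rw [← hlab δ hV]
      exact hle

end Pool.Agent.Helper31.FX
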