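import Pool.Agent.Helper31.FX.Sweeps

/-! Project FX: the label function of a monotone map without fixed point. -/

set_option autoImplicit false

universe u

namespace Pool.Agent.Helper31.FX

/-- In a poset with bounded chains a monotone map with a point comparable to its image has a
fixed point. -/
theorem fix_of_le {P : Type u} [PartialOrder P] (n : ℕ)
    (hn : ∀ c : Finset P, IsChain (· ≤ ·) (c : Set P) → c.card ≤ n)
    (f : P → P) (hf : Monotone f) (x : P) (hx : x ≤ f x) : ∃ y, f y = y := by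
  classical
  by_contra hno
  push Not at hno
  have hstep : ∀ k, f^[k] x < f^[k + 1] x := by
    intro k
    have h1 : f^[k] x ≤ f^[k + 1] x := by
      induction k with
      | zero => simpa using hx
      | succ k ih =>
        rw [Function.iterate_succ_apply' f k x, Function.iterate_succ_apply' f (k + 1) x]
        exact hf ih
    refine lt_of_le_of_ne h1 ?_
    rw [Function.iterate_succ_apply' f k x]
    exact fun e => hno _ e.symm
  have hmono : StrictMono (fun k => f^[k] x) := strictMono_nat_of_lt_succ hstep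
  have hc := hn ((Finset.range (n + 1)).image (fun k => f^[k] x)) (by
    intro a ha b hb _
    simp only [Finset.coe_image, Set.mem_image] at ha hb
    obtain ⟨i, _, rfl⟩ := ha
    obtain ⟨j, _, rfl⟩ := hb
    rcases le_total i j with h | h
    · exact Or.inl (hmono.monotone h)
    · exact Or.inr (hmono.monotone h))
  rw [Finset.card_image_of_injective _ hmono.injective, Finset.card_range] at hc
  omega

theorem fix_of_ge {P : Type u} [PartialOrder P] (n : ℕ)
    (hn : ∀ c : Finset P, IsChain (· ≤ ·) (c : Set P) → c.card ≤ n)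
    (f : P → P) (hf : Monotone f) (x : P) (hx : f x ≤ x) : ∃ y, f y = y := by
  classical
  by_contra hno
  push Not at hno
  have hstep : ∀ k, f^[k + 1] x < f^[k] x := by
    intro k
    have h1 : f^[k + 1] x ≤ f^[k] x := by
      induction k with
      | zero => simpa using hx
      | succ k ih =>
        rw [Function.iterate_succ_apply' f k x, Function.iterate_succ_apply' f (k + 1) x]
        exact hf ih
    refine lt_of_le_of_ne h1 ?_
    rw [Function.iterate_succ_apply' f k x]
    exact fun e => hno _ e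
  have hmono : StrictAnti (fun k => f^[k] x) := strictAnti_nat_of_succ_lt hstep
  have hc := hn ((Finset.range (n + 1)).image (fun k => f^[k] x)) (by
    intro a ha b hb _
    simp only [Finset.coe_image, Set.mem_image] at ha hb
    obtain ⟨i, _, rfl⟩ := ha
    obtain ⟨j, _, rfl⟩ := hb
    rcases le_total i j with h | h
    · exact Or.inr (hmono.antitone h)
    · exact Or.inl (hmono.antitone h))
  rw [Finset.card_image_of_injective _ hmono.injective, Finset.card_range] at hc
  omega

/-- The label function: from a monotone map without fixed point on a poset with bounded chains and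
an element `s` having a join or a meet with every element, and a set `E` of elements below `s` such
that every element below `s` has a greatest element of `E` below it. -/
theorem exists_label (P : Type u) [PartialOrder P]
    (hfin : ∃ n : ℕ, ∀ c : Finset P, IsChain (· ≤ ·) (c : Set P) → c.card ≤ n) (s : P)
    (hi : ∀ x : P, (∃ z : P, IsLUB ({s, x} : Set P) z) ∨ (∃ z : P, IsGLB ({s, x} : Set P) z))
    (E : Set P) (hE : ∀ d ∈ E, d < s)
    (hgr : ∀ m : P, m < s → ∃ e, IsGreatest {d | d ∈ E ∧ d ≤ m} e)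
    (hj : ∀ x y m e : P, x < y → (¬ ∃ z : P, IsGLB ({s, x} : Set P) z) →
      IsGLB ({s, y} : Set P) m → m < s → e ∈ E → e ≤ m → ∃ z : P, IsLUB ({e, x} : Set P) z)
    (f : P → P) (hf : Monotone f) (hno : ¬ ∃ x : P, f x = x) :
    ∃ (r : ℕ) (lam : (Fin r → P) → P),
      (∀ δ, Rel δ δ → (∀ j, δ j ∈ insert s E) → lam δ ∈ E) ∧
      (∀ δ δ', Rel δ δ' → Rel δ δ → Rel δ' δ' → (∀ j, δ j ∈ insert s E) →
        (∀ j, δ' j ∈ insert s E) → lam δ ≤ lam δ' ∨ lam δ' ≤ lam δ) ∧
      ∀ δ, Rel δ δ → (∀ j, δ j ∈ insert s E) → ∀ M ∈ E, (∀ j, δ j ≤ M) → ¬ M ≤ lam δ := by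
  classical
  obtain ⟨n, hn⟩ := hfin
  have nle : ∀ x, ¬ x ≤ f x := fun x hx => hno (fix_of_le n hn f hf x hx)
  have nge : ∀ x, ¬ f x ≤ x := fun x hx => hno (fix_of_ge n hn f hf x hx)
  -- the set A
  let A : Set P := {x | ¬ ∃ z : P, IsGLB ({s, f x} : Set P) z}
  have hW : ∀ x, x ∉ A → ∃ z : P, IsGLB ({s, f x} : Set P) z := by
    intro x hx
    simpa [A] using hx
  have hA : ∀ x ∈ A, ∃ z : P, IsLUB ({s, f x} : Set P) z := by
    intro x hx
    rcases hi (f x) with h | h
    · exact h
    · exact absurd h hx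
  -- meets, with junk value
  let be : P → P := fun x => if h : ∃ z : P, IsGLB ({s, f x} : Set P) z then h.choose else s
  have hbe : ∀ x, x ∉ A → IsGLB ({s, f x} : Set P) (be x) := by
    intro x hx
    have h := hW x hx
    simp only [be, dif_pos h]
    exact h.choose_spec
  have hbes : ∀ x, x ∉ A → be x ≤ s := fun x hx => (hbe x hx).1 (by simp)
  have hbef : ∀ x, x ∉ A → be x ≤ f x := fun x hx => (hbe x hx).1 (by simp)
  have hbem : ∀ x y, x ∉ A → y ∉ A → x ≤ y → be x ≤ be y := by
    intro x y hx hy hxy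
    refine (hbe y hy).2 ?_
    rintro z (rfl | rfl)
    · exact hbes x hx
    · exact (hbef x hx).trans (hf hxy)
  -- the domain of the joins with d
  let dom : P → P → Prop := fun d x => d ∈ E ∧ ∃ w, w ∉ A ∧ x < w ∧ be w < s ∧ d ≤ be w
  let K : P → P → P := fun d x =>
    if h : ∃ z : P, IsLUB ({(if dom d x then d else s), f x} : Set P) z then h.choose else s
  have hlub : ∀ d x, x ∈ A → IsLUB ({(if dom d x then d else s), f x} : Set P) (K d x) := by
    intro d x hx
    have h : ∃ z : P, IsLUB ({(if dom d x then d else s), f x} : Set P) z := by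
      by_cases hd : dom d x
      · rw [if_pos hd]
        obtain ⟨hdE, w, hw, hxw, hws, hdw⟩ := hd
        refine hj (f x) (f w) (be w) d ?_ hx (hbe w hw) hws hdE hdw
        refine lt_of_le_of_ne (hf hxw.le) ?_
        intro e
        apply hx
        rw [e]
        exact hW w hw
      · rw [if_neg hd]
        exact hA x hx
    simp only [K, dif_pos h]
    exact h.choose_spec
  let Z : Set P := insert s E
  have hZs : ∀ d ∈ Z, d ≤ s := by
    rintro d (rfl | hd)
    · exact le_rfl
    · exact (hE d hd).le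
  have hKd : ∀ d ∈ Z, ∀ x ∈ A, d ≤ K d x := by
    intro d hd x hx
    have h := (hlub d x hx).1
    have h1 : (if dom d x then d else s) ≤ K d x := h (by simp)
    by_cases hdo : dom d x
    · rwa [if_pos hdo] at h1
    · rw [if_neg hdo] at h1
      exact (hZs d hd).trans h1
  have hKf : ∀ d, ∀ x ∈ A, f x ≤ K d x := fun d x hx => (hlub d x hx).1 (by simp)
  have hKx : ∀ d ∈ Z, ∀ x ∈ A, ¬ K d x ≤ x := by
    intro d _ x hx h
    exact nge x ((hKf d x hx).trans h)
  -- the value in the domain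
  have hKin : ∀ d x, x ∈ A → dom d x → ∀ y, d ≤ y → f x ≤ y → K d x ≤ y := by
    intro d x hx hd y h1 h2
    have h := (hlub d x hx).2
    rw [if_pos hd] at h
    refine h ?_
    rintro z (rfl | rfl)
    · exact h1
    · exact h2
  have hKs : ∀ d ∈ Z, ∀ x ∈ A, ∀ y, s ≤ y → f x ≤ y → K d x ≤ y := by
    intro d hd x hx y h1 h2
    have h := (hlub d x hx).2
    refine h ?_
    rintro z (rfl | rfl)
    · by_cases hdo : dom d x
      · rw [if_pos hdo]
        exact (hZs d hd).trans h1
      · rw [if_neg hdo]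
        exact h1
    · exact h2
  have hK : ∀ d ∈ Z, ∀ d' ∈ Z, ∀ x ∈ A, ∀ x' ∈ A, d ≤ d' → x ≤ x' → K d x ≤ K d' x' := by
    intro d hd d' hd' x hx x' hx' hdd hxx
    by_cases hdo : dom d' x'
    · obtain ⟨hdE', w, hw, hxw, hws, hdw⟩ := hdo
      have hdlt : d < s := lt_of_le_of_lt hdd (hE d' hdE')
      have hdE : d ∈ E := by
        rcases hd with rfl | h
        · exact absurd hdlt (lt_irrefl _)
        · exact h
      have hdo1 : dom d x := ⟨hdE, w, hw, lt_of_le_of_lt hxx hxw, hws, hdd.trans hdw⟩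
      exact hKin d x hx hdo1 _ (hdd.trans (hKd d' hd' x' hx')) ((hf hxx).trans (hKf d' x' hx'))
    · refine hKs d hd x hx _ ?_ ((hf hxx).trans (hKf d' x' hx'))
      have h := (hlub d' x' hx').1
      have h1 : (if dom d' x' then d' else s) ≤ K d' x' := h (by simp)
      rwa [if_neg hdo] at h1
  obtain ⟨v, hv1, hv2⟩ := sweeps n hn s A Z (Or.inl rfl) hZs K hK hKd hKx
  -- the crucial property: the meet at an exit is not above a value of the tuple
  have hstar : ∀ δ, Rel δ δ → (∀ j, δ j ∈ Z) → ∀ M, (∀ j, δ j ≤ M) → M ≤ s →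
      ¬ M ≤ be (v δ) := by
    intro δ hδ hδZ M hM hMs hcon
    obtain ⟨hvA, j, hj'⟩ := hv1 δ hδ hδZ
    have hjb : δ j ≤ be (v δ) := (hM j).trans hcon
    rcases hj' with e | ⟨z, hz, hzv, e⟩
    · apply nle (v δ)
      calc v δ = δ j := e
        _ ≤ be (v δ) := hjb
        _ ≤ f (v δ) := hbef _ hvA
    · apply nle (v δ)
      have hfz : f z ≤ f (v δ) := hf hzv
      have hzlt : z < v δ := by
        refine lt_of_le_of_ne hzv ?_
        intro e'
        exact hvA (e' ▸ hz)
      rcases (hbes _ hvA).lt_or_eq with hlt | heq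
      · have hjE : δ j ∈ E := by
          rcases hδZ j with h | h
          · exact absurd (h ▸ hjb) (not_le_of_gt hlt)
          · exact h
        have hdo : dom (δ j) z := ⟨hjE, v δ, hvA, hzlt, hlt, hjb⟩
        have h := hKin (δ j) z hz hdo (f (v δ)) (hjb.trans (hbef _ hvA)) hfz
        rw [← e] at h
        exact h
      · have h := hKs (δ j) (hδZ j) z hz (f (v δ)) (heq ▸ hbef _ hvA) hfz
        rw [← e] at h
        exact h
  have hlt : ∀ δ, Rel δ δ → (∀ j, δ j ∈ Z) → be (v δ) < s := by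
    intro δ hδ hδZ
    refine lt_of_le_of_ne (hbes _ (hv1 δ hδ hδZ).1) ?_
    intro e
    exact hstar δ hδ hδZ s (fun j => hZs _ (hδZ j)) le_rfl e.ge
  -- labels
  let pi : P → P := fun m => if h : ∃ e, IsGreatest {d | d ∈ E ∧ d ≤ m} e then h.choose else m
  have hpi : ∀ m, m < s → IsGreatest {d | d ∈ E ∧ d ≤ m} (pi m) := by
    intro m hm
    have h := hgr m hm
    simp only [pi, dif_pos h]
    exact h.choose_spec
  let lam : (Fin n → P) → P := fun δ => pi (be (v δ))
  have hl1 : ∀ δ, Rel δ δ → (∀ j, δ j ∈ insert s E) → lam δ ∈ E := by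
    intro δ hδ hδZ
    exact (hpi _ (hlt δ hδ hδZ)).1.1
  have hl2 : ∀ δ δ', Rel δ δ' → Rel δ δ → Rel δ' δ' → (∀ j, δ j ∈ insert s E) →
      (∀ j, δ' j ∈ insert s E) → lam δ ≤ lam δ' ∨ lam δ' ≤ lam δ := by
    have aux : ∀ δ δ', Rel δ δ → Rel δ' δ' → (∀ j, δ j ∈ insert s E) →
        (∀ j, δ' j ∈ insert s E) → v δ ≤ v δ' → lam δ ≤ lam δ' := by
      intro δ δ' h1 h2 hz1 hz2 hle
      refine (hpi _ (hlt δ' h2 hz2)).2 ⟨hl1 δ h1 hz1, ?_⟩
      exact (hpi _ (hlt δ h1 hz1)).1.2.trans
        (hbem _ _ (hv1 δ h1 hz1).1 (hv1 δ' h2 hz2).1 hle)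
    intro δ δ' hr h1 h2 hz1 hz2
    rcases hv2 δ δ' hr h1 h2 hz1 hz2 with h | h
    · exact Or.inl (aux δ δ' h1 h2 hz1 hz2 h)
    · exact Or.inr (aux δ' δ h2 h1 hz2 hz1 h)
  have hl3 : ∀ δ, Rel δ δ → (∀ j, δ j ∈ insert s E) → ∀ M ∈ E, (∀ j, δ j ≤ M) →
      ¬ M ≤ lam δ := by
    intro δ hδ hδZ M hME hM hcon
    exact hstar δ hδ hδZ M hM (hE M hME).le (hcon.trans (hpi _ (hlt δ hδ hδZ)).1.2)
  exact ⟨n, lam, hl1, hl2, hl3⟩

end Pool.Agent.Helper31.FX
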