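import Pool.Agent.Helper31.FX.Defs

/-! Project FX: only finitely many labels occur. -/

set_option autoImplicit false

namespace Pool.Agent.Helper31.FX

private theorem labels_aux {P : Type*} [PartialOrder P] (r : ℕ) (s : P) (E : Set P)
    (hE : ∀ d ∈ E, d < s) (lam : (Fin r → P) → P)
    (h1 : ∀ δ, Rel δ δ → (∀ j, δ j ∈ insert s E) → lam δ ∈ E)
    (h2 : ∀ δ δ', Rel δ δ' → Rel δ δ → Rel δ' δ' → (∀ j, δ j ∈ insert s E) →
      (∀ j, δ' j ∈ insert s E) → lam δ ≤ lam δ' ∨ lam δ' ≤ lam δ)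
    (hloc : ∀ d ∈ E, {e | e ∈ E ∧ (e ≤ d ∨ d ≤ e)}.Finite) (i : ℕ) :
    {d | ∃ δ, Rel δ δ ∧ (∀ j, δ j ∈ insert s E) ∧ (∀ j : Fin r, i ≤ (j : ℕ) → δ j = s) ∧
      lam δ = d}.Finite := by
  have hle : ∀ x ∈ insert s E, x ≤ s := by
    intro x hx
    rcases hx with rfl | hx
    · exact le_rfl
    · exact (hE x hx).le
  induction i with
  | zero =>
    refine Set.Finite.subset (Set.finite_singleton (lam fun _ => s)) ?_
    rintro d ⟨δ, -, -, h, rfl⟩
    have : δ = fun _ => s := funext fun j => h j (Nat.zero_le _)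
    rw [this]
    exact Set.mem_singleton _
  | succ i ih =>
    refine Set.Finite.subset (Set.Finite.biUnion ih (t := fun d => {e | e ∈ E ∧ (e ≤ d ∨ d ≤ e)})
      ?_) ?_
    · rintro d ⟨δ, hr, hm, -, rfl⟩
      exact hloc _ (h1 δ hr hm)
    · rintro d ⟨δ, hr, hm, hs, rfl⟩
      set δ' : Fin r → P := fun j => if (j : ℕ) < i then δ j else s with hδ'
      have ha : ∀ j : Fin r, (j : ℕ) < i → δ' j = δ j := fun j hj => by simp only [hδ', if_pos hj]
      have hb : ∀ j : Fin r, i ≤ (j : ℕ) → δ' j = s := fun j hj => by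
        simp only [hδ', if_neg (not_lt.2 hj)]
      have hm' : ∀ j, δ' j ∈ insert s E := by
        intro j
        by_cases hj : (j : ℕ) < i
        · rw [ha j hj]
          exact hm j
        · rw [hb j (not_lt.1 hj)]
          exact Set.mem_insert _ _
      have hr' : Rel δ' δ' := by
        refine ⟨fun j => le_rfl, fun j k hjk => ?_⟩
        by_cases hk : (k : ℕ) < i
        · have hj : (j : ℕ) < i := lt_trans hjk hk
          rw [ha j hj, ha k hk]
          exact hr.2 j k hjk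
        · rw [hb k (not_lt.1 hk)]
          exact hle _ (hm' j)
      have hrr : Rel δ δ' := by
        refine ⟨fun j => ?_, fun j k hjk => ?_⟩
        · by_cases hj : (j : ℕ) < i
          · rw [ha j hj]
          · rw [hb j (not_lt.1 hj)]
            exact hle _ (hm j)
        · by_cases hk : (k : ℕ) < i + 1
          · have hjk' : (j : ℕ) < (k : ℕ) := hjk
            have hj : (j : ℕ) < i := by omega
            rw [ha j hj]
            exact hr.2 j k hjk
          · rw [hs k (by omega)]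
            exact hle _ (hm' j)
      simp only [Set.mem_iUnion]
      exact ⟨lam δ', ⟨δ', hr', hm', hb, rfl⟩, h1 δ hr hm, h2 δ δ' hrr hr hr' hm hm'⟩

theorem labels_finite {P : Type*} [PartialOrder P] (r : ℕ) (s : P) (E : Set P)
    (hE : ∀ d ∈ E, d < s) (lam : (Fin r → P) → P)
    (h1 : ∀ δ, Rel δ δ → (∀ j, δ j ∈ insert s E) → lam δ ∈ E)
    (h2 : ∀ δ δ', Rel δ δ' → Rel δ δ → Rel δ' δ' → (∀ j, δ j ∈ insert s E) →
      (∀ j, δ' j ∈ insert s E) → lam δ ≤ lam δ' ∨ lam δ' ≤ lam δ)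
    (hloc : ∀ d ∈ E, {e | e ∈ E ∧ (e ≤ d ∨ d ≤ e)}.Finite) :
    {d | ∃ δ, Rel δ δ ∧ (∀ j, δ j ∈ insert s E) ∧ lam δ = d}.Finite := by
  refine Set.Finite.subset (labels_aux r s E hE lam h1 h2 hloc r) ?_
  rintro d ⟨δ, hr, hm, h⟩
  exact ⟨δ, hr, hm, fun j hj => absurd j.2 (not_lt.2 hj), h⟩

end Pool.Agent.Helper31.FX
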