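import Pool.Agent.Helper31.FX.Special
import Pool.Agent.Helper43.SPH.Main

/-! Project FX: the theorem for lattices. -/

set_option autoImplicit false

universe u

namespace Pool.Agent.Helper31.FX

section

variable {L : Type u} [Lattice L] [BoundedOrder L] {s : L}

lemma FXL_atom (hfin : ∃ n : ℕ, ∀ c : Finset L, IsChain (· ≤ ·) (c : Set L) → c.card ≤ n) (x : L)
    (hx : x ≠ ⊥) : ∃ a, IsAtom a ∧ a ≤ x := by
  obtain ⟨n, hn⟩ := hfin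
  have key : ∀ k : ℕ, ∀ x : L, Helper43.SPH.hgt x ≤ k → x ≠ ⊥ → ∃ a, IsAtom a ∧ a ≤ x := by
    intro k
    induction k with
    | zero =>
      intro x hk hx
      have h := Helper43.SPH.hgt_lt hn ⊥ x (bot_lt_iff_ne_bot.2 hx)
      omega
    | succ k ih =>
      intro x hk hx
      by_cases hat : IsAtom x
      · exact ⟨x, hat, le_rfl⟩
      · have h1 : ∃ y, y < x ∧ y ≠ ⊥ := by
          by_contra hcon
          push Not at hcon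
          exact hat ⟨hx, hcon⟩
        obtain ⟨y, hy, hy0⟩ := h1
        have h := Helper43.SPH.hgt_lt hn y x hy
        obtain ⟨a, ha, hay⟩ := ih y (by omega) hy0
        exact ⟨a, ha, hay.trans hy.le⟩
  exact key _ x le_rfl hx

lemma FXL_not_compl {y : L} (hy : y ⊓ s ≠ ⊥) : ¬ IsCompl y s := fun h => hy h.inf_eq_bot

lemma FXL_glb (hs1 : s ≠ ⊤) (hsP : s ≠ ⊥ ∧ s ≠ ⊤ ∧ ¬ IsCompl s s)
    (x : {x : L // x ≠ ⊥ ∧ x ≠ ⊤ ∧ ¬ IsCompl x s}) (h : s ⊓ x.1 ≠ ⊥) :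
    ∃ z : {x : L // x ≠ ⊥ ∧ x ≠ ⊤ ∧ ¬ IsCompl x s},
      IsGLB ({⟨s, hsP⟩, x} : Set {x : L // x ≠ ⊥ ∧ x ≠ ⊤ ∧ ¬ IsCompl x s}) z := by
  refine ⟨⟨s ⊓ x.1, h, ?_, FXL_not_compl ?_⟩, ?_, ?_⟩
  · intro e
    exact hs1 (top_le_iff.1 (e ▸ inf_le_left))
  · rw [inf_right_comm, inf_idem]
    exact h
  · rintro y (rfl | rfl)
    · exact inf_le_left
    · exact inf_le_right
  · intro y hy
    exact le_inf (hy (Or.inl rfl)) (hy (Or.inr rfl))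

lemma FXL_sup_ne {x : L} (hx : ¬ IsCompl x s) (h : s ⊓ x = ⊥) : s ⊔ x ≠ ⊤ := by
  intro e
  exact hx (IsCompl.of_eq (by rw [inf_comm]; exact h) (by rw [sup_comm]; exact e))

lemma FXL_lub {d : L} (hd : d ≠ ⊥) (hds : d ≤ s)
    (x : {x : L // x ≠ ⊥ ∧ x ≠ ⊤ ∧ ¬ IsCompl x s}) (h : s ⊓ x.1 = ⊥)
    (hdP : d ≠ ⊥ ∧ d ≠ ⊤ ∧ ¬ IsCompl d s) :
    ∃ z : {x : L // x ≠ ⊥ ∧ x ≠ ⊤ ∧ ¬ IsCompl x s},
      IsLUB ({⟨d, hdP⟩, x} : Set {x : L // x ≠ ⊥ ∧ x ≠ ⊤ ∧ ¬ IsCompl x s}) z := by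
  refine ⟨⟨d ⊔ x.1, ?_, ?_, FXL_not_compl ?_⟩, ?_, ?_⟩
  · intro e
    exact hd (le_bot_iff.1 (e ▸ le_sup_left))
  · intro e
    have h2 : d ⊔ x.1 ≤ s ⊔ x.1 := sup_le_sup_right hds x.1
    rw [e] at h2
    exact FXL_sup_ne x.2.2.2 h (top_le_iff.1 h2)
  · intro e
    have h2 : d ≤ (d ⊔ x.1) ⊓ s := le_inf le_sup_left hds
    rw [e] at h2
    exact hd (le_bot_iff.1 h2)
  · rintro y (rfl | rfl)
    · exact le_sup_left
    · exact le_sup_right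
  · intro y hy
    exact sup_le (hy (Or.inl rfl)) (hy (Or.inr rfl))

end

/-- Finitely many atoms below `s`. -/
theorem main_atoms (L : Type u) [Lattice L] [BoundedOrder L]
    (hfin : ∃ n : ℕ, ∀ c : Finset L, IsChain (· ≤ ·) (c : Set L) → c.card ≤ n) (s : L)
    (hs0 : s ≠ ⊥) (hs1 : s ≠ ⊤) (hat : {a : L | IsAtom a ∧ a ≤ s}.Finite)
    (f : {x : L // x ≠ ⊥ ∧ x ≠ ⊤ ∧ ¬ IsCompl x s} → {x : L // x ≠ ⊥ ∧ x ≠ ⊤ ∧ ¬ IsCompl x s})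
    (hf : Monotone f) : ∃ x, f x = x := by
  classical
  have hsP : s ≠ ⊥ ∧ s ≠ ⊤ ∧ ¬ IsCompl s s :=
    ⟨hs0, hs1, FXL_not_compl (by rw [inf_idem]; exact hs0)⟩
  -- joins of atoms
  let T : Finset L := hat.toFinset
  have hT : ∀ a, a ∈ T ↔ IsAtom a ∧ a ≤ s := fun a => by simp [T]
  let j : L → L := fun m => (T.filter (· ≤ m)).sup id
  have hj_le : ∀ m, j m ≤ m := by
    intro m
    refine Finset.sup_le (fun a ha => ?_)
    exact (Finset.mem_filter.1 ha).2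
  have hj_mono : ∀ m m', m ≤ m' → j m ≤ j m' := by
    intro m m' h
    refine Finset.sup_mono (fun a ha => ?_)
    rw [Finset.mem_filter] at ha ⊢
    exact ⟨ha.1, ha.2.trans h⟩
  have hj_idem : ∀ m, j (j m) = j m := by
    intro m
    refine le_antisymm (hj_le _) (Finset.sup_le (fun a ha => ?_))
    have h1 : a ≤ j m := Finset.le_sup (f := id) ha
    refine Finset.le_sup (f := id) ?_
    rw [Finset.mem_filter] at ha ⊢
    exact ⟨ha.1, h1⟩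
  have hj_ne : ∀ m, m ≠ ⊥ → m ≤ s → j m ≠ ⊥ := by
    intro m hm hms
    obtain ⟨a, ha, ham⟩ := FXL_atom hfin m hm
    have h1 : a ≤ j m :=
      Finset.le_sup (f := id) (Finset.mem_filter.2 ⟨(hT a).2 ⟨ha, ham.trans hms⟩, ham⟩)
    intro e
    exact ha.1 (le_bot_iff.1 (e ▸ h1))
  have hPs : ∀ d : L, d ≠ ⊥ → d ≤ s → d ≠ ⊥ ∧ d ≠ ⊤ ∧ ¬ IsCompl d s := by
    intro d hd hds
    refine ⟨hd, fun e => hs1 (top_le_iff.1 (e ▸ hds)), FXL_not_compl ?_⟩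
    rw [inf_eq_left.2 hds]
    exact hd
  have hinf : ∀ x : {x : L // x ≠ ⊥ ∧ x ≠ ⊤ ∧ ¬ IsCompl x s},
      (¬ ∃ z, IsGLB ({⟨s, hsP⟩, x} : Set {x : L // x ≠ ⊥ ∧ x ≠ ⊤ ∧ ¬ IsCompl x s}) z) →
      s ⊓ x.1 = ⊥ := by
    intro x hx
    by_contra h
    exact hx (FXL_glb hs1 hsP x h)
  refine main_poset {x : L // x ≠ ⊥ ∧ x ≠ ⊤ ∧ ¬ IsCompl x s} ?_ ⟨s, hsP⟩ ?_
    {x | x < ⟨s, hsP⟩ ∧ j x.1 = x.1} (fun d hd => hd.1) ?_ ?_ ?_ f hf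
  · obtain ⟨n, hn⟩ := hfin
    refine ⟨n, fun c hc => ?_⟩
    have h1 := hn (c.map ⟨Subtype.val, Subtype.val_injective⟩) (by
      intro x hx y hy hxy
      rw [Finset.coe_map] at hx hy
      obtain ⟨x', hx', rfl⟩ := hx
      obtain ⟨y', hy', rfl⟩ := hy
      exact hc hx' hy' (fun e => hxy (by rw [e])))
    rw [Finset.card_map] at h1
    exact h1
  · intro x
    by_cases h : s ⊓ x.1 = ⊥
    · exact Or.inl (FXL_lub hs0 le_rfl x h hsP)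
    · exact Or.inr (FXL_glb hs1 hsP x h)
  · intro m hm
    have hm' : m.1 < s := hm
    have h1 := hj_ne m.1 m.2.1 hm'.le
    refine ⟨⟨j m.1, hPs _ h1 ((hj_le _).trans hm'.le)⟩, ⟨⟨?_, hj_idem _⟩, hj_le _⟩, ?_⟩
    · exact lt_of_le_of_lt (hj_le m.1) hm'
    · rintro d ⟨⟨_, hd2⟩, hd3⟩
      show d.1 ≤ j m.1
      rw [← hd2]
      exact hj_mono _ _ hd3
  · intro x y m e hxy hx hm hms he hem
    have h1 := FXL_lub (s := s) e.2.1 (le_of_lt (show e.1 < s from he.1)) x (hinf x hx) e.2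
    exact h1
  · intro d _
    have h1 : ({x : {x : L // x ≠ ⊥ ∧ x ≠ ⊤ ∧ ¬ IsCompl x s} |
        x < ⟨s, hsP⟩ ∧ j x.1 = x.1}).Finite := by
      refine Set.Finite.of_finite_image (f := Subtype.val) ?_ Subtype.val_injective.injOn
      refine ((T.powerset.image (fun F => F.sup id)).finite_toSet).subset ?_
      rintro _ ⟨x, ⟨_, hx⟩, rfl⟩
      rw [Finset.mem_coe, Finset.mem_image]
      exact ⟨T.filter (· ≤ x.1), Finset.mem_powerset.2 (Finset.filter_subset _ _), hx⟩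
    exact h1.subset (fun e he => he.1)

/-- Finitely many atoms below `s` or finitely many coatoms above `s`. -/
theorem main_lattice (L : Type u) [Lattice L] [BoundedOrder L]
    (hfin : ∃ n : ℕ, ∀ c : Finset L, IsChain (· ≤ ·) (c : Set L) → c.card ≤ n) (s : L)
    (hs0 : s ≠ ⊥) (hs1 : s ≠ ⊤)
    (hat : {a : L | IsAtom a ∧ a ≤ s}.Finite ∨ {a : L | IsCoatom a ∧ s ≤ a}.Finite)
    (f : {x : L // x ≠ ⊥ ∧ x ≠ ⊤ ∧ ¬ IsCompl x s} → {x : L // x ≠ ⊥ ∧ x ≠ ⊤ ∧ ¬ IsCompl x s})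
    (hf : Monotone f) : ∃ x, f x = x := by
  rcases hat with hat | hat
  · exact main_atoms L hfin s hs0 hs1 hat f hf
  · have hfin' : ∃ n : ℕ, ∀ c : Finset Lᵒᵈ, IsChain (· ≤ ·) (c : Set Lᵒᵈ) → c.card ≤ n := by
      obtain ⟨n, hn⟩ := hfin
      refine ⟨n, fun c hc => hn c ?_⟩
      intro x hx y hy hxy
      exact (hc hx hy hxy).symm
    let tow : {x : L // x ≠ ⊥ ∧ x ≠ ⊤ ∧ ¬ IsCompl x s} →
        {x : Lᵒᵈ // x ≠ ⊥ ∧ x ≠ ⊤ ∧ ¬ IsCompl x (OrderDual.toDual s)} := fun x =>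
      ⟨OrderDual.toDual x.1, x.2.2.1, x.2.1, fun h => x.2.2.2 h.ofDual⟩
    let fr : {x : Lᵒᵈ // x ≠ ⊥ ∧ x ≠ ⊤ ∧ ¬ IsCompl x (OrderDual.toDual s)} →
        {x : L // x ≠ ⊥ ∧ x ≠ ⊤ ∧ ¬ IsCompl x s} := fun x =>
      ⟨OrderDual.ofDual x.1, x.2.2.1, x.2.1, fun h => x.2.2.2 h.dual⟩
    obtain ⟨x, hx⟩ := main_atoms Lᵒᵈ hfin' (OrderDual.toDual s) hs1 hs0 (by
        refine hat.subset ?_
        rintro a ⟨ha, has⟩
        exact ⟨ha, has⟩) (fun x => tow (f (fr x))) (by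
      intro x y hxy
      exact hf (show fr y ≤ fr x from hxy))
    refine ⟨fr x, ?_⟩
    have h1 := congrArg fr hx
    exact h1

end Pool.Agent.Helper31.FX
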