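import Pool.Agent.Helper31.FX.Main

/-! Project FX: the theorems for lattices. -/

set_option autoImplicit false

universe u

namespace Pool.Agent.Helper31.FX

/-- A set of chains bounded in size: no infinite strictly increasing sequence. -/
theorem lat_wf {L : Type u} [PartialOrder L]
    (hfin : ∃ n : ℕ, ∀ c : Finset L, IsChain (· ≤ ·) (c : Set L) → c.card ≤ n) :
    WellFounded ((· > ·) : L → L → Prop) ∧ WellFounded ((· < ·) : L → L → Prop) := by
  classical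
  obtain ⟨n, hn⟩ := hfin
  constructor
  · rw [RelEmbedding.wellFounded_iff_isEmpty]
    refine ⟨fun e => ?_⟩
    have hmono : StrictMono (fun k : ℕ => e k) := fun a b hab => e.map_rel_iff.2 hab
    have h1 := hn ((Finset.range (n + 1)).image (fun k : ℕ => e k)) (by
      intro x hx y hy _
      rw [Finset.coe_image] at hx hy
      obtain ⟨i, -, rfl⟩ := hx
      obtain ⟨j, -, rfl⟩ := hy
      rcases le_total i j with h | h
      · exact Or.inl (hmono.monotone h)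
      · exact Or.inr (hmono.monotone h))
    rw [Finset.card_image_of_injective _ hmono.injective, Finset.card_range] at h1
    omega
  · rw [RelEmbedding.wellFounded_iff_isEmpty]
    refine ⟨fun e => ?_⟩
    have hmono : StrictAnti (fun k : ℕ => e k) := fun a b hab => e.map_rel_iff.2 hab
    have h1 := hn ((Finset.range (n + 1)).image (fun k : ℕ => e k)) (by
      intro x hx y hy _
      rw [Finset.coe_image] at hx hy
      obtain ⟨i, -, rfl⟩ := hx
      obtain ⟨j, -, rfl⟩ := hy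
      rcases le_total i j with h | h
      · exact Or.inr (hmono.antitone h)
      · exact Or.inl (hmono.antitone h))
    rw [Finset.card_image_of_injective _ hmono.injective, Finset.card_range] at h1
    omega

/-- the join of the atoms below `m` -/
theorem exists_socle {L : Type u} [Lattice L] [BoundedOrder L]
    (hfin : ∃ n : ℕ, ∀ c : Finset L, IsChain (· ≤ ·) (c : Set L) → c.card ≤ n)
    (m : L) (hm : m ≠ ⊥) :
    ∃ e : L, e ≤ m ∧ e ≠ ⊥ ∧ IsLUB {a | IsAtom a ∧ a ≤ e} e ∧ ∀ a, IsAtom a → a ≤ m → a ≤ e := by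
  obtain ⟨hgt, hlt⟩ := lat_wf hfin
  obtain ⟨e, ⟨he1, he2⟩, he3⟩ := hgt.has_min {x | x ≤ m ∧ IsLUB {a | IsAtom a ∧ a ≤ x} x}
    ⟨⊥, bot_le, ⟨fun a ha => ha.2, fun u _ => bot_le⟩⟩
  have hat : ∀ a, IsAtom a → a ≤ m → a ≤ e := by
    intro a ha ham
    by_contra hcon
    have h1 : e < e ⊔ a := lt_of_le_of_ne le_sup_left fun h => hcon (h ▸ le_sup_right)
    refine he3 (e ⊔ a) ⟨sup_le he1 ham, fun x hx => hx.2, fun u hu => sup_le ?_ ?_⟩ h1
    · exact he2.2 fun x hx => hu ⟨hx.1, hx.2.trans le_sup_left⟩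
    · exact hu ⟨ha, le_sup_right⟩
  refine ⟨e, he1, ?_, he2, hat⟩
  obtain ⟨a, ⟨ha1, ha2⟩, ha3⟩ := hlt.has_min {x : L | x ≠ ⊥ ∧ x ≤ m} ⟨m, hm, le_rfl⟩
  have haa : IsAtom a := by
    refine ⟨ha1, fun b hb => ?_⟩
    by_contra hb0
    exact ha3 b ⟨hb0, hb.le.trans ha2⟩ hb
  rintro rfl
  exact ha1 (le_bot_iff.1 (hat a haa ha2))

/-- the elements of a bounded lattice other than `⊥`, `⊤` and the complements of `s` -/
abbrev Pr {L : Type u} [Lattice L] [BoundedOrder L] (s : L) : Type u :=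
  {x : L // x ≠ ⊥ ∧ x ≠ ⊤ ∧ ¬ IsCompl x s}

/-- The general theorem for lattices: the joins of atoms strictly below `s` form a tame set. -/
theorem main_joins (L : Type u) [Lattice L] [BoundedOrder L]
    (hfin : ∃ n : ℕ, ∀ c : Finset L, IsChain (· ≤ ·) (c : Set L) → c.card ≤ n) (s : L)
    (hs0 : s ≠ ⊥) (hs1 : s ≠ ⊤)
    (ht : Tame {x : L | x < s ∧ x ≠ ⊥ ∧ IsLUB {a | IsAtom a ∧ a ≤ x} x})
    (f : {x : L // x ≠ ⊥ ∧ x ≠ ⊤ ∧ ¬ IsCompl x s} → {x : L // x ≠ ⊥ ∧ x ≠ ⊤ ∧ ¬ IsCompl x s})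
    (hf : Monotone f) : ∃ x, f x = x := by
  classical
  set E : Set L := {x : L | x < s ∧ x ≠ ⊥ ∧ IsLUB {a | IsAtom a ∧ a ≤ x} x} with hEdef
  have hss : ¬ IsCompl s s := by
    intro h
    exact hs0 (by simpa using h.inf_eq_bot)
  -- membership
  have mem1 : ∀ x : L, x ≠ ⊤ → x ⊓ s ≠ ⊥ → x ≠ ⊥ ∧ x ≠ ⊤ ∧ ¬ IsCompl x s := by
    intro x h1 h2
    refine ⟨fun h => h2 (by rw [h, bot_inf_eq]), h1, fun h => h2 h.inf_eq_bot⟩
  have mem2 : ∀ x : L, x ≠ ⊥ → x ⊔ s ≠ ⊤ → x ≠ ⊥ ∧ x ≠ ⊤ ∧ ¬ IsCompl x s := by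
    intro x h1 h2
    refine ⟨h1, fun h => h2 (by rw [h, top_sup_eq]), fun h => h2 h.sup_eq_top⟩
  let sP : Pr s := ⟨s, hs0, hs1, hss⟩
  -- meets and joins in `Pr s`
  have hglb : ∀ x : Pr s, (x : L) ⊓ s ≠ ⊥ → ∃ z : Pr s, IsGLB ({sP, x} : Set (Pr s)) z := by
    intro x hx
    have h1 : (x : L) ⊓ s ⊓ s ≠ ⊥ := by rwa [inf_assoc, inf_idem]
    have h2 : (x : L) ⊓ s ≠ ⊤ := fun h => hs1 (top_le_iff.1 (h ▸ inf_le_right))
    refine ⟨⟨(x : L) ⊓ s, mem1 _ h2 h1⟩, ?_, ?_⟩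
    · rintro y (rfl | rfl)
      · exact (inf_le_right : (x : L) ⊓ s ≤ s)
      · exact (inf_le_left : (y : L) ⊓ s ≤ y)
    · intro y hy
      have h3 : y ≤ sP := hy (by simp)
      have h4 : y ≤ x := hy (by simp)
      exact (le_inf h4 h3 : (y : L) ≤ (x : L) ⊓ s)
  have hlub : ∀ e x : Pr s, (e : L) ⊔ (x : L) ≠ ⊤ → ((e : L) ⊔ x) ⊓ s ≠ ⊥ →
      ∃ z : Pr s, IsLUB ({e, x} : Set (Pr s)) z := by
    intro e x h1 h2
    refine ⟨⟨(e : L) ⊔ x, mem1 _ h1 h2⟩, ?_, ?_⟩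
    · rintro y (rfl | rfl)
      · exact (le_sup_left : (y : L) ≤ (y : L) ⊔ x)
      · exact (le_sup_right : (y : L) ≤ (e : L) ⊔ y)
    · intro y hy
      have h3 : e ≤ y := hy (by simp)
      have h4 : x ≤ y := hy (by simp)
      exact (sup_le h3 h4 : (e : L) ⊔ x ≤ y)
  have hnt : ∀ x : Pr s, (x : L) ⊓ s = ⊥ → s ⊔ (x : L) ≠ ⊤ := by
    intro x hx h
    refine x.2.2.2 ⟨disjoint_iff.2 hx, codisjoint_iff.2 ?_⟩
    rw [sup_comm]
    exact h
  -- the data in `Pr s`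
  have hfinP : ∃ n : ℕ, ∀ c : Finset (Pr s), IsChain (· ≤ ·) (c : Set (Pr s)) → c.card ≤ n := by
    obtain ⟨n, hn⟩ := hfin
    refine ⟨n, fun c hc => ?_⟩
    have h1 := hn (c.map ⟨Subtype.val, Subtype.val_injective⟩) (by
      intro x hx y hy hxy
      simp only [Finset.coe_map, Function.Embedding.coeFn_mk, Set.mem_image] at hx hy
      obtain ⟨x', hx', rfl⟩ := hx
      obtain ⟨y', hy', rfl⟩ := hy
      exact hc hx' hy' fun h => hxy (by rw [h]))
    rwa [Finset.card_map] at h1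
  have hi : ∀ x : Pr s, (∃ z : Pr s, IsLUB ({sP, x} : Set (Pr s)) z) ∨
      (∃ z : Pr s, IsGLB ({sP, x} : Set (Pr s)) z) := by
    intro x
    by_cases h : (x : L) ⊓ s = ⊥
    · left
      refine hlub sP x (hnt x h) ?_
      intro h1
      exact hs0 (le_bot_iff.1 (h1 ▸ le_inf le_sup_left le_rfl))
    · exact Or.inr (hglb x h)
  have htP : Tame {d : Pr s | (d : L) ∈ E} := by
    rcases ht with h | h
    · refine Or.inl ?_
      rintro ⟨v, hv, hvE, hvc, c, n, hp⟩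
      refine h ⟨fun k => (v k : L), Subtype.val_injective.comp hv, hvE, hvc, (c : L), n, ?_⟩
      intro i
      obtain ⟨p, h0, hn, hE, hc⟩ := hp i
      exact ⟨fun j => (p j : L), congrArg Subtype.val h0, congrArg Subtype.val hn, hE, hc⟩
    · exact Or.inr fun a ha b hb c hc hab hbc => h a ha b hb c hc hab hbc
  refine main_tame (Pr s) hfinP sP hi {d : Pr s | (d : L) ∈ E} ?_ ?_ ?_ htP f hf
  · intro d hd
    exact (hd.1 : (d : L) < s)
  · intro m hm
    have hms : (m : L) < s := hm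
    obtain ⟨e, he1, he2, he3, he4⟩ := exists_socle hfin (m : L) m.2.1
    have hes : e < s := lt_of_le_of_lt he1 hms
    have heP : e ≠ ⊥ ∧ e ≠ ⊤ ∧ ¬ IsCompl e s := by
      refine mem1 e (fun h => ?_) (by rwa [inf_eq_left.2 hes.le])
      rw [h] at hes
      exact not_top_lt hes
    refine ⟨⟨e, heP⟩, ⟨⟨hes, he2, he3⟩, he1⟩, ?_⟩
    rintro d ⟨hd1, hd2⟩
    have hd3 : (d : L) ≤ m := hd2
    exact (hd1.2.2.2 fun a ha => he4 a ha.1 (ha.2.trans hd3) : (d : L) ≤ e)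
  · intro x y m e _ hx hm hms he hem
    have hxs : (x : L) ⊓ s = ⊥ := by
      by_contra h
      exact hx (hglb x h)
    have hes : (e : L) ≤ s := (hem.trans hms.le : e ≤ sP)
    have h1 : (e : L) ⊔ x ≠ ⊤ := by
      intro h
      exact hnt x hxs (top_le_iff.1 (h.symm.le.trans (sup_le_sup_right hes _)))
    refine hlub e x h1 ?_
    intro h
    exact e.2.1 (le_bot_iff.1 ((le_inf le_sup_left hes).trans h.le))

/-- sufficient conditions below `s` -/
theorem main_below (L : Type u) [Lattice L] [BoundedOrder L]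
    (hfin : ∃ n : ℕ, ∀ c : Finset L, IsChain (· ≤ ·) (c : Set L) → c.card ≤ n) (s : L)
    (hs0 : s ≠ ⊥) (hs1 : s ≠ ⊤)
    (h : {a : L | IsAtom a ∧ a ≤ s}.Finite ∨ (∀ a b c : L, ⊥ < a → a < b → b < c → ¬ c < s))
    (f : {x : L // x ≠ ⊥ ∧ x ≠ ⊤ ∧ ¬ IsCompl x s} → {x : L // x ≠ ⊥ ∧ x ≠ ⊤ ∧ ¬ IsCompl x s})
    (hf : Monotone f) : ∃ x, f x = x := by
  classical
  refine main_joins L hfin s hs0 hs1 ?_ f hf
  rcases h with h | h
  · refine tame_of_finite _ ?_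
    refine Set.Finite.of_finite_image (f := fun x : L => {a : L | IsAtom a ∧ a ≤ x}) ?_ ?_
    · refine Set.Finite.subset h.finite_subsets ?_
      rintro t ⟨x, hx, rfl⟩
      exact fun a ha => ⟨ha.1, ha.2.trans hx.1.le⟩
    · intro x hx y hy hxy
      have h1 : IsLUB {a | IsAtom a ∧ a ≤ x} y := by
        have h2 := hy.2.2
        simp only at hxy
        rwa [← hxy] at h2
      exact hx.2.2.unique h1
  · refine Or.inr ?_
    intro a ha b _ c hc hab hbc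
    exact h a b c (bot_lt_iff_ne_bot.2 ha.2.1) hab hbc hc.1

/-- **The theorem for lattices**: finitely many atoms below `s`, or `[⊥, s]` of length at most
three, or dually. -/
theorem main_lattice2 (L : Type u) [Lattice L] [BoundedOrder L]
    (hfin : ∃ n : ℕ, ∀ c : Finset L, IsChain (· ≤ ·) (c : Set L) → c.card ≤ n) (s : L)
    (hs0 : s ≠ ⊥) (hs1 : s ≠ ⊤)
    (h : ({a : L | IsAtom a ∧ a ≤ s}.Finite ∨ (∀ a b c : L, ⊥ < a → a < b → b < c → ¬ c < s)) ∨
      ({a : L | IsCoatom a ∧ s ≤ a}.Finite ∨ (∀ a b c : L, s < a → a < b → b < c → ¬ c < ⊤)))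
    (f : {x : L // x ≠ ⊥ ∧ x ≠ ⊤ ∧ ¬ IsCompl x s} → {x : L // x ≠ ⊥ ∧ x ≠ ⊤ ∧ ¬ IsCompl x s})
    (hf : Monotone f) : ∃ x, f x = x := by
  rcases h with h | h
  · exact main_below L hfin s hs0 hs1 h f hf
  · -- transport to the dual lattice
    have hc : ∀ x : L, IsCompl (OrderDual.toDual x) (OrderDual.toDual s) ↔ IsCompl x s := by
      intro x
      exact ⟨fun h => h.ofDual, fun h => h.dual⟩
    let to' : {x : L // x ≠ ⊥ ∧ x ≠ ⊤ ∧ ¬ IsCompl x s} → Pr (OrderDual.toDual s) := fun x =>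
      ⟨OrderDual.toDual x.1, x.2.2.1, x.2.1, fun h => x.2.2.2 ((hc _).1 h)⟩
    let of' : Pr (OrderDual.toDual s) → {x : L // x ≠ ⊥ ∧ x ≠ ⊤ ∧ ¬ IsCompl x s} := fun x =>
      ⟨OrderDual.ofDual x.1, x.2.2.1, x.2.1, fun h => x.2.2.2 ((hc _).2 h)⟩
    have hfin' : ∃ n : ℕ, ∀ c : Finset Lᵒᵈ, IsChain (· ≤ ·) (c : Set Lᵒᵈ) → c.card ≤ n := by
      obtain ⟨n, hn⟩ := hfin
      exact ⟨n, fun c hc => hn c (fun x hx y hy hxy => (hc hx hy hxy).symm)⟩
    obtain ⟨x, hx⟩ := main_below Lᵒᵈ hfin' (OrderDual.toDual s) hs1 hs0 (by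
      rcases h with h | h
      · left
        refine h.subset ?_
        rintro a ⟨ha1, ha2⟩
        exact ⟨isAtom_dual_iff_isCoatom.1 ha1, ha2⟩
      · right
        intro a b c h1 h2 h3 h4
        exact h c b a h4 h3 h2 h1) (fun x => to' (f (of' x))) (by
      intro x y hxy
      exact hf hxy)
    refine ⟨of' x, ?_⟩
    have h1 := congrArg of' hx
    exact h1

/-- Lattices whose chains have at most eight elements. -/
theorem main_eight (L : Type u) [Lattice L] [BoundedOrder L]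
    (hfin : ∀ c : Finset L, IsChain (· ≤ ·) (c : Set L) → c.card ≤ 8) (s : L)
    (hs0 : s ≠ ⊥) (hs1 : s ≠ ⊤)
    (f : {x : L // x ≠ ⊥ ∧ x ≠ ⊤ ∧ ¬ IsCompl x s} → {x : L // x ≠ ⊥ ∧ x ≠ ⊤ ∧ ¬ IsCompl x s})
    (hf : Monotone f) : ∃ x, f x = x := by
  classical
  refine main_lattice2 L ⟨8, hfin⟩ s hs0 hs1 ?_ f hf
  by_contra hcon
  push Not at hcon
  obtain ⟨⟨-, a, b, c, h1, h2, h3, h4⟩, -, a', b', c', h5, h6, h7, h8⟩ := hcon
  let g : Fin 9 → L := ![⊥, a, b, c, s, a', b', c', ⊤]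
  have hg : StrictMono g := by
    rw [Fin.strictMono_iff_lt_succ]
    intro i
    fin_cases i
    · exact h1
    · exact h2
    · exact h3
    · exact h4
    · exact h5
    · exact h6
    · exact h7
    · exact h8
  have h := hfin (Finset.univ.image g) (by
    intro x hx y hy _
    rw [Finset.coe_image] at hx hy
    obtain ⟨i, -, rfl⟩ := hx
    obtain ⟨j, -, rfl⟩ := hy
    rcases le_total i j with h | h
    · exact Or.inl (hg.monotone h)
    · exact Or.inr (hg.monotone h))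
  rw [Finset.card_image_of_injective _ hg.injective, Finset.card_univ, Fintype.card_fin] at h
  omega

end Pool.Agent.Helper31.FX
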