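import Pool.Agent.Helper31.FX.Label
import Pool.Agent.Helper31.FX.Bounded
import Pool.Agent.Helper31.FX.Graph

/-! Project FX: the theorem for posets. -/

set_option autoImplicit false

universe u

namespace Pool.Agent.Helper31.FX

/-- `E` contains no ray of bounded diameter, or `E` contains no chain of three elements. -/
def Tame {P : Type u} [PartialOrder P] (E : Set P) : Prop :=
  ¬ HasBoundedRay E ∨ (∀ a ∈ E, ∀ b ∈ E, ∀ c ∈ E, a < b → ¬ b < c)

theorem tame_of_locallyFinite {P : Type u} [PartialOrder P] (E : Set P)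
    (h : ∀ d ∈ E, {e | e ∈ E ∧ (e ≤ d ∨ d ≤ e)}.Finite) : Tame E :=
  Or.inl (not_hasBoundedRay_of_finite E h)

theorem tame_of_finite {P : Type u} [PartialOrder P] (E : Set P) (h : E.Finite) : Tame E :=
  tame_of_locallyFinite E fun _ _ => h.subset fun _ he => he.1

theorem tame_of_rayless {P : Type u} [PartialOrder P] (E : Set P)
    (h : ¬ ∃ v : ℕ → P, Function.Injective v ∧ (∀ k, v k ∈ E) ∧
      ∀ k, v k ≤ v (k + 1) ∨ v (k + 1) ≤ v k) : Tame E :=
  Or.inl (not_hasBoundedRay_of_rayless E h)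

theorem main_tame (P : Type u) [PartialOrder P]
    (hfin : ∃ n : ℕ, ∀ c : Finset P, IsChain (· ≤ ·) (c : Set P) → c.card ≤ n) (s : P)
    (hi : ∀ x : P, (∃ z : P, IsLUB ({s, x} : Set P) z) ∨ (∃ z : P, IsGLB ({s, x} : Set P) z))
    (E : Set P) (hE : ∀ d ∈ E, d < s)
    (hgr : ∀ m : P, m < s → ∃ e, IsGreatest {d | d ∈ E ∧ d ≤ m} e)
    (hj : ∀ x y m e : P, x < y → (¬ ∃ z : P, IsGLB ({s, x} : Set P) z) →
      IsGLB ({s, y} : Set P) m → m < s → e ∈ E → e ≤ m → ∃ z : P, IsLUB ({e, x} : Set P) z)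
    (ht : Tame E)
    (f : P → P) (hf : Monotone f) : ∃ x : P, f x = x := by
  by_contra hno
  obtain ⟨r, lam, h1, h2, h3⟩ := exists_label P hfin s hi E hE hgr hj f hf hno
  rcases ht with h | h
  · exact no_labelling_bray r s E hE lam h1 h2 h3 h
  · exact no_labelling_graph r s E hE lam h1 h2 h3 h

theorem tame_dual {P : Type u} [PartialOrder P] (E : Set P) (h : Tame E) :
    Tame (P := Pᵒᵈ) (OrderDual.ofDual ⁻¹' E) := by
  rcases h with h | h
  · refine Or.inl ?_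
    rintro ⟨v, hv, hvE, hvc, c, n, hp⟩
    apply h
    refine ⟨v, hv, hvE, fun k => (hvc k).symm, c, n, ?_⟩
    intro i
    obtain ⟨p, h0, hn, hE, hc⟩ := hp i
    exact ⟨p, h0, hn, hE, fun j hj => (hc j hj).symm⟩
  · refine Or.inr ?_
    intro a ha b hb c hc hab hbc
    exact h c hc b hb a ha hbc hab

/-- The order dual of `main_tame`. -/
theorem main_tame_dual (P : Type u) [PartialOrder P]
    (hfin : ∃ n : ℕ, ∀ c : Finset P, IsChain (· ≤ ·) (c : Set P) → c.card ≤ n) (s : P)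
    (hi : ∀ x : P, (∃ z : P, IsLUB ({s, x} : Set P) z) ∨ (∃ z : P, IsGLB ({s, x} : Set P) z))
    (E : Set P) (hE : ∀ d ∈ E, s < d)
    (hgr : ∀ m : P, s < m → ∃ e, IsLeast {d | d ∈ E ∧ m ≤ d} e)
    (hj : ∀ x y m e : P, y < x → (¬ ∃ z : P, IsLUB ({s, x} : Set P) z) →
      IsLUB ({s, y} : Set P) m → s < m → e ∈ E → m ≤ e → ∃ z : P, IsGLB ({e, x} : Set P) z)
    (ht : Tame E)
    (f : P → P) (hf : Monotone f) : ∃ x : P, f x = x := by
  obtain ⟨n, hn⟩ := hfin
  have key := main_tame Pᵒᵈ ⟨n, fun c hc => hn c (by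
    intro a ha b hb hab
    exact (hc ha hb hab).symm)⟩ (OrderDual.toDual s)
    (fun x => (hi (OrderDual.ofDual x)).symm) (OrderDual.ofDual ⁻¹' E)
    (fun d hd => hE _ hd) (fun m hm => hgr (OrderDual.ofDual m) hm)
    (fun x y m e h1 h2 h3 h4 h5 h6 =>
      hj (OrderDual.ofDual x) (OrderDual.ofDual y) (OrderDual.ofDual m) (OrderDual.ofDual e)
        h1 h2 h3 h4 h5 h6) (tame_dual E ht)
    (fun x => OrderDual.toDual (f (OrderDual.ofDual x))) (fun a b hab => hf hab)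
  exact key

end Pool.Agent.Helper31.FX
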