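import Mathlib

/-! Project FX: the parity argument. -/

set_option autoImplicit false

namespace Pool.Agent.Helper31.FX

theorem parity {P : Type*} [PartialOrder P] [DecidableEq P] (B : Finset P) (s : P)
    (hB : ∀ b ∈ B, b < s) (a : Finset P → Finset P → ZMod 2)
    (h0 : a ∅ ∅ = 1)
    (h1 : ∀ σ ⊆ insert s B, IsChain (· ≤ ·) (σ : Set P) → σ.Nonempty → ∀ ν,
      ∑ y ∈ B with y ∉ ν, a σ (insert y ν) = ∑ x ∈ σ, a (σ.erase x) ν)
    (h2 : ∀ μ ⊆ B, IsChain (· ≤ ·) (μ : Set P) → μ.Nonempty → a μ μ = 0)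
    (h3 : ∀ σ ⊆ insert s B, IsChain (· ≤ ·) (σ : Set P) → ∀ ν, a σ ν ≠ 0 →
      ν ⊆ B ∧ IsChain (· ≤ ·) (ν : Set P)) : False := by
  classical
  have hsB : s ∉ B := fun h => lt_irrefl s (hB s h)
  set C : Finset (Finset P) := B.powerset.filter (fun μ => IsChain (· ≤ ·) (μ : Set P)) with hC
  have hmem : ∀ μ, μ ∈ C ↔ μ ⊆ B ∧ IsChain (· ≤ ·) (μ : Set P) := by
    intro μ
    rw [hC, Finset.mem_filter, Finset.mem_powerset]
  have hins : ∀ μ ∈ C, insert s μ ⊆ insert s B ∧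
      IsChain (· ≤ ·) ((insert s μ : Finset P) : Set P) := by
    intro μ hμ
    rw [hmem] at hμ
    refine ⟨Finset.insert_subset_insert s hμ.1, ?_⟩
    rw [Finset.coe_insert]
    refine hμ.2.insert ?_
    intro b hb _
    exact Or.inr (hB b (hμ.1 (Finset.mem_coe.mp hb))).le
  set T : ZMod 2 := ∑ μ ∈ C, ∑ y ∈ B with y ∉ μ, a (insert s μ) (insert y μ) with hT
  have hstep : T = ∑ μ ∈ C, (a μ μ + ∑ x ∈ μ, a (insert s (μ.erase x)) μ) := by
    rw [hT]
    refine Finset.sum_congr rfl ?_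
    intro μ hμ
    obtain ⟨hi1, hi2⟩ := hins μ hμ
    rw [h1 (insert s μ) hi1 hi2 (Finset.insert_nonempty s μ) μ]
    rw [hmem] at hμ
    have hsμ : s ∉ μ := fun h => hsB (hμ.1 h)
    rw [Finset.sum_insert hsμ, Finset.erase_insert hsμ]
    congr 1
    refine Finset.sum_congr rfl ?_
    intro x hx
    have hxs : s ≠ x := fun h => hsμ (h ▸ hx)
    rw [Finset.erase_insert_of_ne hxs]
  have hdiag : ∑ μ ∈ C, a μ μ = 1 := by
    have hE : (∅ : Finset P) ∈ C := by
      rw [hmem]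
      refine ⟨Finset.empty_subset _, ?_⟩
      rw [Finset.coe_empty]
      exact IsChain.empty
    rw [Finset.sum_eq_single_of_mem ∅ hE, h0]
    intro μ hμ hne
    rw [hmem] at hμ
    exact h2 μ hμ.1 hμ.2 (Finset.nonempty_iff_ne_empty.mpr hne)
  have hdouble : ∑ μ ∈ C, ∑ x ∈ μ, a (insert s (μ.erase x)) μ = T := by
    rw [hT, Finset.sum_sigma', Finset.sum_sigma']
    refine Finset.sum_bij_ne_zero (fun q _ _ => (⟨q.1.erase q.2, q.2⟩ : Σ _ : Finset P, P))
      ?_ ?_ ?_ ?_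
    · rintro ⟨μ, x⟩ hq _
      rw [Finset.mem_sigma] at hq
      obtain ⟨hμ, hx⟩ := hq
      rw [hmem] at hμ
      rw [Finset.mem_sigma]
      refine ⟨?_, ?_⟩
      · rw [hmem]
        exact ⟨(Finset.erase_subset _ _).trans hμ.1,
          hμ.2.mono (Finset.coe_subset.mpr (Finset.erase_subset _ _))⟩
      · rw [Finset.mem_filter]
        exact ⟨hμ.1 hx, Finset.notMem_erase _ _⟩
    · rintro ⟨μ, x⟩ hq _ ⟨μ', x'⟩ hq' _ heq
      rw [Finset.mem_sigma] at hq hq'
      obtain ⟨hμ, hx⟩ := hq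
      obtain ⟨hμ', hx'⟩ := hq'
      simp only [Sigma.mk.injEq] at heq
      obtain ⟨h1', h2'⟩ := heq
      have h2'' : x = x' := eq_of_heq h2'
      subst h2''
      have : μ = μ' := by
        have e1 : insert x (μ.erase x) = μ := Finset.insert_erase hx
        have e2 : insert x (μ'.erase x) = μ' := Finset.insert_erase hx'
        rw [← e1, ← e2, h1']
      rw [this]
    · rintro ⟨μ, y⟩ hq hne
      rw [Finset.mem_sigma] at hq
      obtain ⟨hμ, hy⟩ := hq
      rw [Finset.mem_filter] at hy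
      obtain ⟨hi1, hi2⟩ := hins μ hμ
      obtain ⟨hν1, hν2⟩ := h3 (insert s μ) hi1 hi2 (insert y μ) hne
      refine ⟨⟨insert y μ, y⟩, ?_, ?_, ?_⟩
      · rw [Finset.mem_sigma]
        exact ⟨(hmem _).mpr ⟨hν1, hν2⟩, Finset.mem_insert_self _ _⟩
      · show a (insert s ((insert y μ).erase y)) (insert y μ) ≠ 0
        rw [Finset.erase_insert hy.2]
        exact hne
      · show (⟨(insert y μ).erase y, y⟩ : Σ _ : Finset P, P) = ⟨μ, y⟩
        rw [Finset.erase_insert hy.2]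
    · rintro ⟨μ, x⟩ hq _
      rw [Finset.mem_sigma] at hq
      show a (insert s (μ.erase x)) μ = a (insert s (μ.erase x)) (insert x (μ.erase x))
      rw [Finset.insert_erase hq.2]
  rw [Finset.sum_add_distrib, hdiag, hdouble] at hstep
  have h10 : (1 : ZMod 2) = 0 := by
    have := hstep
    rw [eq_comm, add_eq_right] at this
    exact this
  exact absurd h10 (by decide)

end Pool.Agent.Helper31.FX
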