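import Pool.Agent.Helper31.FX.Chains

/-! Project FX: the subdivision chain. -/

set_option autoImplicit false

namespace Pool.Agent.Helper31.FX

/-- auxiliary recursion of `exists_rec`, on the number of elements -/
noncomputable def Subdiv_Sn {V P : Type*} [DecidableEq P] (hh : Finset P → LC V →ₗ[ZMod 2] LC V) :
    ℕ → Finset P → LC V
  | 0, _ => Finsupp.single [] 1
  | n + 1, σ => hh σ (∑ x ∈ σ, Subdiv_Sn hh n (σ.erase x))

theorem Subdiv_swap {V P : Type*} [DecidableEq P] (σ : Finset P) (f : P → P → LC V)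
    (hf : ∀ x y, f x y = f y x) : ∑ x ∈ σ, ∑ y ∈ σ.erase x, f x y = 0 := by
  rw [Finset.sum_sigma']
  refine Finset.sum_involution (fun p _ => ⟨p.2, p.1⟩) ?_ ?_ ?_ ?_
  · rintro ⟨x, y⟩ _
    show f x y + f y x = 0
    rw [hf y x]
    exact lc_add_self _
  · rintro ⟨x, y⟩ h _ h2
    rw [Finset.mem_sigma, Finset.mem_erase] at h
    have h3 : y = x := congrArg Sigma.fst h2
    exact h.2.1 h3
  · rintro ⟨x, y⟩ h
    rw [Finset.mem_sigma, Finset.mem_erase] at h ⊢
    exact ⟨h.2.2, fun h4 => h.2.1 h4.symm, h.1⟩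
  · rintro ⟨x, y⟩ _
    rfl

/-- Recursive construction with given contractions. -/
theorem exists_rec {V P : Type*} [DecidableEq P] (hh : Finset P → LC V →ₗ[ZMod 2] LC V)
    (hc : ∀ σ, σ ≠ ∅ → ∀ c, D (hh σ c) + hh σ (D c) = c) :
    ∃ S : Finset P → LC V, S ∅ = Finsupp.single [] 1 ∧
      (∀ σ, σ ≠ ∅ → S σ = hh σ (∑ x ∈ σ, S (σ.erase x))) ∧
      ∀ σ, D (S σ) = ∑ x ∈ σ, S (σ.erase x) := by
  set S : Finset P → LC V := fun σ => Subdiv_Sn hh σ.card σ with hS
  have h0 : S ∅ = Finsupp.single [] 1 := rfl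
  have h1 : ∀ σ, σ ≠ ∅ → S σ = hh σ (∑ x ∈ σ, S (σ.erase x)) := by
    intro σ hσ
    obtain ⟨n, hn⟩ : ∃ n, σ.card = n + 1 :=
      Nat.exists_eq_succ_of_ne_zero (fun h => hσ (Finset.card_eq_zero.1 h))
    have h2 : S σ = hh σ (∑ x ∈ σ, Subdiv_Sn hh n (σ.erase x)) := by
      show Subdiv_Sn hh σ.card σ = _
      rw [hn]
      rfl
    rw [h2]
    congr 1
    refine Finset.sum_congr rfl fun x hx => ?_
    show Subdiv_Sn hh n (σ.erase x) = Subdiv_Sn hh (σ.erase x).card (σ.erase x)
    rw [Finset.card_erase_of_mem hx, hn, Nat.add_sub_cancel]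
  refine ⟨S, h0, h1, ?_⟩
  have key : ∀ n : ℕ, ∀ σ : Finset P, σ.card = n → D (S σ) = ∑ x ∈ σ, S (σ.erase x) := by
    intro n
    induction n with
    | zero =>
      intro σ hσ
      rw [Finset.card_eq_zero] at hσ
      rw [hσ, h0, D_single, Finset.sum_empty]
      rfl
    | succ n ih =>
      intro σ hσ
      have hne : σ ≠ ∅ := by
        intro h
        rw [h, Finset.card_empty] at hσ
        exact absurd hσ (Nat.succ_ne_zero n).symm
      have hDE : D (∑ x ∈ σ, S (σ.erase x)) = 0 := by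
        rw [map_sum]
        have h3 : ∀ x ∈ σ, D (S (σ.erase x)) = ∑ y ∈ σ.erase x, S ((σ.erase x).erase y) := by
          intro x hx
          refine ih (σ.erase x) ?_
          rw [Finset.card_erase_of_mem hx, hσ, Nat.add_sub_cancel]
        rw [Finset.sum_congr rfl h3]
        refine Subdiv_swap σ (fun x y => S ((σ.erase x).erase y)) fun x y => ?_
        show S ((σ.erase x).erase y) = S ((σ.erase y).erase x)
        rw [Finset.erase_right_comm]
      have h4 := hc σ hne (∑ x ∈ σ, S (σ.erase x))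
      rw [hDE, map_zero, add_zero] at h4
      rw [h1 σ hne]
      exact h4
  intro σ
  exact key σ.card σ rfl

/-- support of a cone -/
theorem Subdiv_cone_support {V : Type*} (v : V) (c : LC V) (l : List V) (h : cone v c l ≠ 0) :
    ∃ t, l = v :: t ∧ c t ≠ 0 := by
  classical
  unfold cone at h
  rw [Finsupp.lmapDomain_apply] at h
  have h1 := Finsupp.mapDomain_support (Finsupp.mem_support_iff.2 h)
  rw [Finset.mem_image] at h1
  obtain ⟨t, ht, rfl⟩ := h1
  exact ⟨t, rfl, Finsupp.mem_support_iff.1 ht⟩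

/-- support of an induced map -/
theorem Subdiv_mp_support {V : Type*} (a : V → V) (c : LC V) (l : List V) (h : mp a c l ≠ 0) :
    ∃ t, l = t.map a ∧ c t ≠ 0 := by
  classical
  unfold mp at h
  rw [Finsupp.lmapDomain_apply] at h
  have h1 := Finsupp.mapDomain_support (Finsupp.mem_support_iff.2 h)
  rw [Finset.mem_image] at h1
  obtain ⟨t, ht, rfl⟩ := h1
  exact ⟨t, rfl, Finsupp.mem_support_iff.1 ht⟩

/-- support of the prism operator -/
theorem Subdiv_PR_support {V : Type*} (a b : V → V) (c : LC V) (l : List V)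
    (h : PR a b c l ≠ 0) : ∃ t, c t ≠ 0 ∧ pr a b t l ≠ 0 := by
  classical
  unfold PR at h
  rw [Finsupp.linearCombination_apply, Finsupp.sum, Finsupp.finsetSum_apply] at h
  obtain ⟨t, ht, h2⟩ := Finset.exists_ne_zero_of_sum_ne_zero h
  refine ⟨t, Finsupp.mem_support_iff.1 ht, fun h3 => h2 ?_⟩
  rw [Finsupp.smul_apply, h3, smul_zero]

/-- the lists in the prism of a list -/
theorem Subdiv_pr_pairwise {V : Type*} (a b : V → V) (R R' : V → V → Prop)
    (haa : ∀ v v', R v v' → R' (a v) (a v')) (hbb : ∀ v v', R v v' → R' (b v) (b v'))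
    (hab : ∀ v v', R v v' → R' (a v) (b v')) (l : List V) :
    l.Pairwise R → (∀ v ∈ l, R v v) → ∀ l', pr a b l l' ≠ 0 →
      l'.Pairwise R' ∧ ∀ u ∈ l', ∃ v ∈ l, u = a v ∨ u = b v := by
  classical
  induction l with
  | nil =>
    intro _ _ l' h
    exact absurd rfl h
  | cons v t ih =>
    intro hp hr l' h
    rw [List.pairwise_cons] at hp
    have hpr : pr a b (v :: t) =
        Finsupp.single (a v :: b v :: t.map b) 1 + cone (a v) (pr a b t) := rfl
    rw [hpr, Finsupp.add_apply] at h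
    have hvv := hr v List.mem_cons_self
    by_cases h1 : cone (a v) (pr a b t) l' = 0
    · rw [h1, add_zero] at h
      have h2 : a v :: b v :: t.map b = l' := by
        by_contra h3
        exact h (Finsupp.single_eq_of_ne (Ne.symm h3))
      subst h2
      have hbmem : ∀ u ∈ t.map b, ∃ v' ∈ t, u = b v' := by
        intro u hu
        rw [List.mem_map] at hu
        obtain ⟨v', hv', rfl⟩ := hu
        exact ⟨v', hv', rfl⟩
      refine ⟨?_, ?_⟩
      · rw [List.pairwise_cons, List.pairwise_cons]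
        refine ⟨?_, ?_, ?_⟩
        · intro u hu
          rcases List.mem_cons.1 hu with rfl | hu
          · exact hab v v hvv
          · obtain ⟨v', hv', rfl⟩ := hbmem u hu
            exact hab v v' (hp.1 v' hv')
        · intro u hu
          obtain ⟨v', hv', rfl⟩ := hbmem u hu
          exact hbb v v' (hp.1 v' hv')
        · rw [List.pairwise_map]
          exact hp.2.imp (fun h4 => hbb _ _ h4)
      · intro u hu
        rcases List.mem_cons.1 hu with rfl | hu
        · exact ⟨v, List.mem_cons_self, Or.inl rfl⟩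
        · rcases List.mem_cons.1 hu with rfl | hu
          · exact ⟨v, List.mem_cons_self, Or.inr rfl⟩
          · obtain ⟨v', hv', rfl⟩ := hbmem u hu
            exact ⟨v', List.mem_cons_of_mem _ hv', Or.inr rfl⟩
    · obtain ⟨t', rfl, ht'⟩ := Subdiv_cone_support _ _ _ h1
      obtain ⟨h5, h6⟩ := ih hp.2 (fun x hx => hr x (List.mem_cons_of_mem _ hx)) t' ht'
      refine ⟨?_, ?_⟩
      · rw [List.pairwise_cons]
        refine ⟨?_, h5⟩
        intro u hu
        obtain ⟨v', hv', rfl | rfl⟩ := h6 u hu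
        · exact haa v v' (hp.1 v' hv')
        · exact hab v v' (hp.1 v' hv')
      · intro u hu
        rcases List.mem_cons.1 hu with rfl | hu
        · exact ⟨v, List.mem_cons_self, Or.inl rfl⟩
        · obtain ⟨v', hv', h7⟩ := h6 u hu
          exact ⟨v', List.mem_cons_of_mem _ hv', h7⟩

/-- The contraction preserves simplices of the edgewise subdivision of a set with least element. -/
theorem good_HH {P : Type*} [PartialOrder P] {r : ℕ} (σ : Finset P) (m : P) (hm : m ∈ σ)
    (hmin : ∀ x ∈ σ, m ≤ x) (c : LC (Fin r → P)) (hc : ∀ l, c l ≠ 0 → Good σ l)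
    (l : List (Fin r → P))
    (hl : HH (fun i v => fun j : Fin r => if (j : ℕ) < i then m else v j) r (fun _ => m) c l ≠ 0) :
    Good σ l := by
  classical
  set g : ℕ → (Fin r → P) → (Fin r → P) := fun i v => fun j : Fin r =>
    if (j : ℕ) < i then m else v j with hg
  set R : (Fin r → P) → (Fin r → P) → Prop := fun v v' =>
    Rel v v' ∧ (∀ j, v j ∈ σ) ∧ ∀ j, v' j ∈ σ with hR
  have hrel : ∀ p q : ℕ, q ≤ p → p ≤ q + 1 → ∀ v v', R v v' → Rel (g p v) (g q v') := by
    intro p q hqp hpq v v' hvv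
    refine ⟨?_, ?_⟩
    · intro j
      show (if (j : ℕ) < p then m else v j) ≤ (if (j : ℕ) < q then m else v' j)
      by_cases h1 : (j : ℕ) < q
      · rw [if_pos h1, if_pos (lt_of_lt_of_le h1 hqp)]
      · rw [if_neg h1]
        by_cases h2 : (j : ℕ) < p
        · rw [if_pos h2]
          exact hmin _ (hvv.2.2 j)
        · rw [if_neg h2]
          exact hvv.1.1 j
    · intro j k hjk
      show (if (j : ℕ) < q then m else v' j) ≤ (if (k : ℕ) < p then m else v k)
      have hjk' : (j : ℕ) < k := hjk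
      by_cases h1 : (k : ℕ) < p
      · rw [if_pos h1, if_pos (by omega)]
      · rw [if_neg h1]
        by_cases h2 : (j : ℕ) < q
        · rw [if_pos h2]
          exact hmin _ (hvv.2.1 k)
        · rw [if_neg h2]
          exact hvv.1.2 j k hjk
  have hmem : ∀ (p : ℕ) (v : Fin r → P), (∀ j, v j ∈ σ) → ∀ j, g p v j ∈ σ := by
    intro p v hv j
    show (if (j : ℕ) < p then m else v j) ∈ σ
    by_cases h1 : (j : ℕ) < p
    · rw [if_pos h1]
      exact hm
    · rw [if_neg h1]
      exact hv j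
  have hpair : ∀ l0, c l0 ≠ 0 → l0.Pairwise R ∧ ∀ v ∈ l0, R v v := by
    intro l0 h0
    obtain ⟨h1, h2⟩ := hc l0 h0
    refine ⟨h1.imp_of_mem ?_, fun v hv => ⟨(h2 v hv).1, (h2 v hv).2, (h2 v hv).2⟩⟩
    intro v v' hv hv' hvv
    exact ⟨hvv, (h2 v hv).2, (h2 v' hv').2⟩
  unfold HH at hl
  rw [LinearMap.add_apply, Finsupp.add_apply] at hl
  by_cases hA : (∑ i ∈ Finset.range r, PR (g (i + 1)) (g i)) c l = 0
  · rw [hA, zero_add, LinearMap.comp_apply] at hl
    obtain ⟨t, rfl, ht⟩ := Subdiv_cone_support _ _ _ hl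
    obtain ⟨l0, rfl, h0⟩ := Subdiv_mp_support _ _ _ ht
    obtain ⟨h1, h2⟩ := hpair l0 h0
    have hconst : ∀ v, g r v = fun _ => m := by
      intro v
      funext j
      show (if (j : ℕ) < r then m else v j) = m
      rw [if_pos j.2]
    refine ⟨?_, ?_⟩
    · rw [List.pairwise_cons]
      refine ⟨?_, ?_⟩
      · intro u hu
        rw [List.mem_map] at hu
        obtain ⟨v, _, rfl⟩ := hu
        rw [hconst]
        exact ⟨fun _ => le_refl _, fun _ _ _ => le_refl _⟩
      · rw [List.pairwise_map]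
        exact h1.imp (fun h3 => hrel r r (le_refl _) (Nat.le_succ _) _ _ h3)
    · intro u hu
      rcases List.mem_cons.1 hu with rfl | hu
      · exact ⟨⟨fun _ => le_refl _, fun _ _ _ => le_refl _⟩, fun _ => hm⟩
      · rw [List.mem_map] at hu
        obtain ⟨v, hv, rfl⟩ := hu
        exact ⟨hrel r r (le_refl _) (Nat.le_succ _) v v (h2 v hv), hmem r v (h2 v hv).2.1⟩
  · rw [LinearMap.sum_apply, Finsupp.finsetSum_apply] at hA
    obtain ⟨i, _, hi⟩ := Finset.exists_ne_zero_of_sum_ne_zero hA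
    obtain ⟨l0, h0, h3⟩ := Subdiv_PR_support _ _ _ _ hi
    obtain ⟨h1, h2⟩ := hpair l0 h0
    obtain ⟨h4, h5⟩ := Subdiv_pr_pairwise (g (i + 1)) (g i) R Rel
      (fun v v' h => hrel (i + 1) (i + 1) (le_refl _) (Nat.le_succ _) v v' h)
      (fun v v' h => hrel i i (le_refl _) (Nat.le_succ _) v v' h)
      (fun v v' h => hrel (i + 1) i (Nat.le_succ _) (le_refl _) v v' h) l0 h1 h2 l h3
    refine ⟨h4, ?_⟩
    intro u hu
    obtain ⟨v, hv, rfl | rfl⟩ := h5 u hu
    · exact ⟨hrel (i + 1) (i + 1) (le_refl _) (Nat.le_succ _) v v (h2 v hv),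
        hmem (i + 1) v (h2 v hv).2.1⟩
    · exact ⟨hrel i i (le_refl _) (Nat.le_succ _) v v (h2 v hv), hmem i v (h2 v hv).2.1⟩

/-- The edgewise subdivision of chains. -/
theorem exists_subdiv (P : Type*) [PartialOrder P] [DecidableEq P] (r : ℕ) :
    ∃ S : Finset P → LC (Fin r → P), S ∅ = Finsupp.single [] 1 ∧
      (∀ σ, D (S σ) = ∑ x ∈ σ, S (σ.erase x)) ∧
      ∀ σ : Finset P, IsChain (· ≤ ·) (σ : Set P) → ∀ l, S σ l ≠ 0 → Good σ l := by
  classical
  let g : P → ℕ → (Fin r → P) → (Fin r → P) := fun m i v => fun j : Fin r =>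
    if (j : ℕ) < i then m else v j
  have hg0 : ∀ m, g m 0 = id := by
    intro m
    funext v j
    simp [g]
  let pt : Finset P → P → Prop := fun σ m => m ∈ σ ∧ ((∃ m' ∈ σ, ∀ x ∈ σ, m' ≤ x) → ∀ x ∈ σ, m ≤ x)
  have hpt : ∀ σ : Finset P, σ ≠ ∅ → ∃ m, pt σ m := by
    intro σ hσ
    by_cases h : ∃ m' ∈ σ, ∀ x ∈ σ, m' ≤ x
    · obtain ⟨m', hm', hx⟩ := h
      exact ⟨m', hm', fun _ => hx⟩
    · obtain ⟨m, hm⟩ := Finset.nonempty_iff_ne_empty.mpr hσ
      exact ⟨m, hm, fun h' => absurd h' h⟩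
  let hh : Finset P → LC (Fin r → P) →ₗ[ZMod 2] LC (Fin r → P) := fun σ =>
    if h : ∃ m, pt σ m then HH (g h.choose) r (fun _ => h.choose) else 0
  have hhc : ∀ σ, σ ≠ ∅ → ∀ c, D (hh σ c) + hh σ (D c) = c := by
    intro σ hσ c
    have h := hpt σ hσ
    have e : hh σ = HH (g h.choose) r (fun _ => h.choose) := by
      simp only [hh, dif_pos h]
    rw [e]
    exact D_HH _ _ _ (hg0 _) c
  obtain ⟨S, h0, h1, h2⟩ := exists_rec hh hhc
  refine ⟨S, h0, h2, ?_⟩
  intro σ
  induction σ using Finset.strongInduction with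
  | H σ ih =>
    intro hch l hl
    by_cases hσ : σ = ∅
    · subst hσ
      rw [h0] at hl
      have : l = [] := by
        by_contra hne
        apply hl
        rw [Finsupp.single_apply, if_neg (Ne.symm hne)]
      subst this
      exact ⟨List.Pairwise.nil, fun v hv => absurd hv (by simp)⟩
    · have h := hpt σ hσ
      have e : hh σ = HH (g h.choose) r (fun _ => h.choose) := by
        simp only [hh, dif_pos h]
      have hmin : ∃ m' ∈ σ, ∀ x ∈ σ, m' ≤ x := by
        obtain ⟨m, hm, hmm⟩ := σ.exists_minimal (Finset.nonempty_iff_ne_empty.mpr hσ)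
        refine ⟨m, hm, fun x hx => ?_⟩
        rcases hch.total hm hx with h' | h'
        · exact h'
        · exact hmm hx h'
      rw [h1 σ hσ, e] at hl
      refine good_HH σ h.choose h.choose_spec.1 (h.choose_spec.2 hmin) _ ?_ l hl
      intro l' hl'
      rw [Finsupp.finsetSum_apply] at hl'
      obtain ⟨x, hx, hxl⟩ := Finset.exists_ne_zero_of_sum_ne_zero hl'
      have hg := ih (σ.erase x) (Finset.erase_ssubset hx)
        (hch.mono (by exact_mod_cast Finset.erase_subset x σ)) l' hxl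
      exact ⟨hg.1, fun v hv => ⟨(hg.2 v hv).1, fun j => Finset.mem_of_mem_erase ((hg.2 v hv).2 j)⟩⟩

end Pool.Agent.Helper31.FX
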