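import Pool.Agent.Helper31.FX.Faces
import Pool.Agent.Helper31.FX.Subdiv
import Pool.Agent.Helper31.FX.Parity

/-! Project FX: the combinatorial fixed point lemma. -/

set_option autoImplicit false

namespace Pool.Agent.Helper31.FX

theorem no_labelling {P : Type*} [PartialOrder P] (r : ℕ) (s : P) (B : Finset P)
    (hB : ∀ b ∈ B, b < s) (lam : (Fin r → P) → P)
    (h1 : ∀ δ, Rel δ δ → (∀ j, δ j ∈ insert s (B : Set P)) → lam δ ∈ B)
    (h2 : ∀ δ δ', Rel δ δ' → Rel δ δ → Rel δ' δ' → (∀ j, δ j ∈ insert s (B : Set P)) →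
      (∀ j, δ' j ∈ insert s (B : Set P)) → lam δ ≤ lam δ' ∨ lam δ' ≤ lam δ)
    (h3 : ∀ δ, Rel δ δ → (∀ j, δ j ∈ insert s (B : Set P)) → ∀ M ∈ B, (∀ j, δ j ≤ M) →
      ¬ M ≤ lam δ) : False := by
  classical
  obtain ⟨S, hS0, hS1, hS2⟩ := exists_subdiv P r
  have hval : ∀ σ ⊆ insert s B, ∀ δ : Fin r → P, (∀ j, δ j ∈ σ) →
      ∀ j, δ j ∈ insert s (B : Set P) := by
    intro σ hσ δ hδ j
    have := hσ (hδ j)
    simpa using this
  -- the support of the label chain
  have hsupp : ∀ σ ⊆ insert s B, IsChain (· ≤ ·) (σ : Set P) → ∀ ν, N lam (S σ) ν ≠ 0 →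
      ∃ l, Good σ l ∧ ν = (l.map lam).toFinset := by
    intro σ hσ hch ν hν
    obtain ⟨l, hl, e⟩ := N_support lam (S σ) ν hν
    exact ⟨l, hS2 σ hch l hl, e⟩
  have h3' : ∀ σ ⊆ insert s B, IsChain (· ≤ ·) (σ : Set P) → ∀ ν, N lam (S σ) ν ≠ 0 →
      ν ⊆ B ∧ IsChain (· ≤ ·) (ν : Set P) := by
    intro σ hσ hch ν hν
    obtain ⟨l, hg, e⟩ := hsupp σ hσ hch ν hν
    subst e
    constructor
    · intro x hx
      simp only [List.mem_toFinset, List.mem_map] at hx
      obtain ⟨v, hv, rfl⟩ := hx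
      exact h1 v (hg.2 v hv).1 (hval σ hσ v (hg.2 v hv).2)
    · intro x hx y hy _
      simp only [List.coe_toFinset, Set.mem_ofPred_eq, List.mem_map] at hx hy
      obtain ⟨v, hv, rfl⟩ := hx
      obtain ⟨w, hw, rfl⟩ := hy
      have hcmp : ∀ l : List (Fin r → P), l.Pairwise Rel → (∀ v ∈ l, Rel v v ∧ ∀ j, v j ∈ σ) →
          ∀ v ∈ l, ∀ w ∈ l, lam v ≤ lam w ∨ lam w ≤ lam v := by
        intro l
        induction l with
        | nil => intro _ _ v hv; exact absurd hv (by simp)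
        | cons u t ih =>
          intro hp hm v hv w hw
          rw [List.pairwise_cons] at hp
          rw [List.mem_cons] at hv hw
          rcases hv with rfl | hv
          · rcases hw with rfl | hw
            · exact Or.inl le_rfl
            · have hmv := hm v (by simp)
              have hmw := hm w (by simp [hw])
              exact h2 v w (hp.1 w hw) hmv.1 hmw.1 (hval σ hσ v hmv.2) (hval σ hσ w hmw.2)
          · rcases hw with rfl | hw
            · have hmv := hm v (by simp [hv])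
              have hmw := hm w (by simp)
              exact (h2 w v (hp.1 v hv) hmw.1 hmv.1 (hval σ hσ w hmw.2)
                (hval σ hσ v hmv.2)).symm
            · exact ih hp.2 (fun x hx => hm x (by simp [hx])) v hv w hw
      exact hcmp l hg.1 hg.2 v hv w hw
  refine parity B s hB (fun σ ν => N lam (S σ) ν) ?_ ?_ ?_ h3'
  · show N lam (S ∅) ∅ = 1
    rw [hS0]
    simp [N, nf]
  · intro σ hσ hch hne ν
    show ∑ y ∈ B with y ∉ ν, N lam (S σ) (insert y ν) = ∑ x ∈ σ, N lam (S (σ.erase x)) ν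
    rw [← dF_apply B (N lam (S σ)) (fun τ hτ => (h3' σ hσ hch τ hτ).1) ν, ← N_D, hS1,
      map_sum, Finsupp.finsetSum_apply]
  · intro μ hμ hch hne
    show N lam (S μ) μ = 0
    by_contra hcon
    have hμ' : μ ⊆ insert s B := hμ.trans (Finset.subset_insert s B)
    obtain ⟨l, hg, e⟩ := hsupp μ hμ' hch μ hcon
    obtain ⟨M, hM, hMm⟩ := μ.exists_maximal hne
    have hMx : ∀ x ∈ μ, x ≤ M := by
      intro x hx
      rcases hch.total hM hx with h | h
      · exact hMm hx h
      · exact h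
    have hM' : M ∈ (l.map lam).toFinset := e ▸ hM
    simp only [List.mem_toFinset, List.mem_map] at hM'
    obtain ⟨v, hv, hvM⟩ := hM'
    exact h3 v (hg.2 v hv).1 (hval μ hμ' v (hg.2 v hv).2) M (hμ hM)
      (fun j => hMx _ ((hg.2 v hv).2 j)) (le_of_eq hvM.symm)

end Pool.Agent.Helper31.FX
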