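import Pool.Agent.Helper31.FX.Faces
import Pool.Agent.Helper31.FX.Subdiv
import Pool.Agent.Helper9.FX.Trail

/-! Project FX: the combinatorial fixed point lemma for infinite sets without a ray. -/

set_option autoImplicit false

namespace Pool.Agent.Helper31.FX

/-- Sums of elements of `ZMod 2` count the nonzero terms. -/
lemma sum_zmod_two {ι : Type*} (t : Finset ι) (g : ι → ZMod 2) :
    ∑ i ∈ t, g i = ((t.filter (fun i => g i ≠ 0)).card : ZMod 2) := by
  rw [Finset.card_filter, Nat.cast_sum]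
  refine Finset.sum_congr rfl (fun i _ => ?_)
  have : ∀ x : ZMod 2, x = (((if x ≠ 0 then 1 else 0 : ℕ)) : ZMod 2) := by decide
  exact this (g i)

theorem parity_ray {P : Type*} [PartialOrder P] [DecidableEq P] (E : Set P) (s : P)
    (hE : ∀ b ∈ E, b < s) (a : Finset P → FC P)
    (h0 : a ∅ ∅ = 1)
    (h1 : ∀ σ : Finset P, (σ : Set P) ⊆ insert s E → IsChain (· ≤ ·) (σ : Set P) → σ.Nonempty →
      ∀ ν, dF (a σ) ν = ∑ x ∈ σ, a (σ.erase x) ν)
    (h2 : ∀ μ : Finset P, (μ : Set P) ⊆ E → IsChain (· ≤ ·) (μ : Set P) → μ.Nonempty →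
      a μ μ = 0)
    (h3 : ∀ σ : Finset P, (σ : Set P) ⊆ insert s E → IsChain (· ≤ ·) (σ : Set P) → ∀ ν,
      a σ ν ≠ 0 → (ν : Set P) ⊆ E ∧ IsChain (· ≤ ·) (ν : Set P))
    (hray : ¬ ∃ v : ℕ → P, Function.Injective v ∧ (∀ k, v k ∈ E) ∧
      ∀ k, v k ≤ v (k + 1) ∨ v (k + 1) ≤ v k) : False := by
  classical
  have hsE : s ∉ E := fun h => lt_irrefl s (hE s h)
  -- chains in `E`
  let Gd : Finset P → Prop := fun μ => (μ : Set P) ⊆ E ∧ IsChain (· ≤ ·) (μ : Set P)
  have hins : ∀ μ, Gd μ → ((insert s μ : Finset P) : Set P) ⊆ insert s E ∧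
      IsChain (· ≤ ·) ((insert s μ : Finset P) : Set P) := by
    intro μ hμ
    rw [Finset.coe_insert]
    refine ⟨Set.insert_subset_insert hμ.1, hμ.2.insert ?_⟩
    intro b hb _
    exact Or.inr (hE b (hμ.1 hb)).le
  have hGsub : ∀ μ ν, Gd μ → ν ⊆ μ → Gd ν := fun μ ν hμ h =>
    ⟨(Finset.coe_subset.mpr h).trans hμ.1, hμ.2.mono (Finset.coe_subset.mpr h)⟩
  -- the relation
  let R : Finset P → Finset P → Prop := fun μ ν =>
    Gd μ ∧ a (insert s μ) ν ≠ 0 ∧ ∃ y, y ∉ μ ∧ ν = insert y μ
  have hRgood : ∀ μ ν, R μ ν → Gd ν := fun μ ν h =>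
    h3 _ (hins μ h.1).1 (hins μ h.1).2 ν h.2.1
  have hRcard : ∀ μ ν, R μ ν → ν.card = μ.card + 1 := by
    rintro μ ν ⟨-, -, y, hy, rfl⟩
    exact Finset.card_insert_of_notMem hy
  have hRsub : ∀ μ ν, R μ ν → μ ⊆ ν := by
    rintro μ ν ⟨-, -, y, hy, rfl⟩
    exact Finset.subset_insert _ _
  have hfup : ∀ μ, {ν | R μ ν}.Finite := by
    intro μ
    refine (Finset.finite_toSet (a (insert s μ)).support).subset ?_
    intro ν hν
    exact Finsupp.mem_support_iff.2 hν.2.1
  have hfdn : ∀ μ, {ν | R ν μ}.Finite := by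
    intro μ
    refine (Finset.finite_toSet μ.powerset).subset ?_
    intro ν hν
    exact Finset.mem_powerset.2 (hRsub _ _ hν)
  let Up : Finset P → Finset (Finset P) := fun μ => (hfup μ).toFinset
  let Dn : Finset P → Finset (Finset P) := fun μ => (hfdn μ).toFinset
  have hUp : ∀ μ ν, ν ∈ Up μ ↔ R μ ν := fun μ ν => by simp [Up]
  have hDn : ∀ μ ν, ν ∈ Dn μ ↔ R ν μ := fun μ ν => by simp [Dn]
  have hdisj : ∀ μ, Disjoint (Up μ) (Dn μ) := by
    intro μ
    rw [Finset.disjoint_left]
    intro ν h h'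
    rw [hUp] at h
    rw [hDn] at h'
    have := hRcard _ _ h
    have := hRcard _ _ h'
    omega
  let N : Finset P → Finset (Finset P) := fun μ => Up μ ∪ Dn μ
  have hN : ∀ μ ν, ν ∈ N μ ↔ R μ ν ∨ R ν μ := fun μ ν => by
    simp only [N, Finset.mem_union, hUp, hDn]
  -- the degrees
  have hdeg : ∀ μ, Gd μ → ((N μ).card : ZMod 2) = a μ μ := by
    intro μ hμ
    obtain ⟨hi1, hi2⟩ := hins μ hμ
    have hsμ : s ∉ μ := fun h => hsE (hμ.1 h)
    -- upper neighbours
    let B : Finset P := (a (insert s μ)).support.sup id ∪ μ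
    have hle : ∀ τ, a (insert s μ) τ ≠ 0 → τ ⊆ B := by
      intro τ hτ
      have : τ ≤ (a (insert s μ)).support.sup id :=
        Finset.le_sup (f := id) (Finsupp.mem_support_iff.2 hτ)
      exact this.trans Finset.subset_union_left
    have hup : ((Up μ).card : ZMod 2) = dF (a (insert s μ)) μ := by
      rw [dF_apply B (a (insert s μ)) hle μ, sum_zmod_two]
      have e : Up μ = ((B.filter (fun y => y ∉ μ)).filter
          (fun y => a (insert s μ) (insert y μ) ≠ 0)).image (fun y => insert y μ) := by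
        ext ν
        rw [hUp, Finset.mem_image]
        constructor
        · rintro ⟨-, hν, y, hy, rfl⟩
          refine ⟨y, ?_, rfl⟩
          rw [Finset.mem_filter, Finset.mem_filter]
          exact ⟨⟨hle _ hν (Finset.mem_insert_self _ _), hy⟩, hν⟩
        · rintro ⟨y, hy, rfl⟩
          rw [Finset.mem_filter, Finset.mem_filter] at hy
          exact ⟨hμ, hy.2, y, hy.1.2, rfl⟩
      rw [e, Finset.card_image_of_injOn]
      intro y hy z hz hyz
      rw [Finset.mem_coe, Finset.mem_filter, Finset.mem_filter] at hy hz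
      have h4 : y ∈ insert z μ := by
        have : insert y μ = insert z μ := hyz
        rw [← this]
        exact Finset.mem_insert_self _ _
      rcases Finset.mem_insert.1 h4 with h | h
      · exact h
      · exact absurd h hy.1.2
    -- lower neighbours
    have hdn : ((Dn μ).card : ZMod 2) = ∑ x ∈ μ, a (insert s (μ.erase x)) μ := by
      rw [sum_zmod_two]
      have e : Dn μ = (μ.filter (fun x => a (insert s (μ.erase x)) μ ≠ 0)).image
          (fun x => μ.erase x) := by
        ext ν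
        rw [hDn, Finset.mem_image]
        constructor
        · rintro ⟨-, hν, y, hy, he⟩
          refine ⟨y, ?_, ?_⟩
          · rw [Finset.mem_filter]
            refine ⟨he ▸ Finset.mem_insert_self _ _, ?_⟩
            have : μ.erase y = ν := by rw [he, Finset.erase_insert hy]
            rw [this]
            exact hν
          · rw [he, Finset.erase_insert hy]
        · rintro ⟨x, hx, rfl⟩
          rw [Finset.mem_filter] at hx
          exact ⟨hGsub _ _ hμ (Finset.erase_subset _ _), hx.2, x, Finset.notMem_erase _ _,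
            (Finset.insert_erase hx.1).symm⟩
      rw [e, Finset.card_image_of_injOn]
      intro y hy z hz hyz
      rw [Finset.mem_coe, Finset.mem_filter] at hy hz
      exact Finset.erase_injOn μ hy.1 hz.1 hyz
    rw [show N μ = Up μ ∪ Dn μ from rfl, Finset.card_union_of_disjoint (hdisj μ), Nat.cast_add,
      hup, hdn, h1 _ hi1 hi2 (Finset.insert_nonempty s μ), Finset.sum_insert hsμ,
      Finset.erase_insert hsμ]
    have e : ∑ x ∈ μ, a ((insert s μ).erase x) μ = ∑ x ∈ μ, a (insert s (μ.erase x)) μ := by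
      refine Finset.sum_congr rfl (fun x hx => ?_)
      have hxs : s ≠ x := fun h => hsμ (h ▸ hx)
      rw [Finset.erase_insert_of_ne hxs]
    rw [e, add_assoc, CharTwo.add_self_eq_zero, add_zero]
  have hbad : ∀ μ, ¬ Gd μ → N μ = ∅ := by
    intro μ hμ
    rw [Finset.eq_empty_iff_forall_notMem]
    intro ν hν
    rw [hN] at hν
    rcases hν with h | h
    · exact hμ h.1
    · exact hμ (hRgood _ _ h)
  have hG0 : Gd ∅ := by
    refine ⟨by simp, ?_⟩
    rw [Finset.coe_empty]
    exact IsChain.empty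
  have hodd : Odd (N ∅).card := by
    have := hdeg ∅ hG0
    rw [h0] at this
    exact (ZMod.natCast_eq_one_iff_odd).1 this
  have heven : ∀ μ, μ ≠ ∅ → Even (N μ).card := by
    intro μ hμ
    by_cases hg : Gd μ
    · have := hdeg μ hg
      rw [h2 μ hg.1 hg.2 (Finset.nonempty_iff_ne_empty.mpr hμ)] at this
      exact (ZMod.natCast_eq_zero_iff_even).1 this
    · rw [hbad μ hg]
      simp
  obtain ⟨m, hm0, hm1, hm2⟩ := Helper9.FX.trail N
    (fun μ ν => by rw [hN, hN, or_comm])
    (fun μ h => by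
      rw [hN, or_self] at h
      have := hRcard _ _ h
      omega) ∅ hodd heven
  have hgood : ∀ i, Gd (m i) := by
    intro i
    by_contra hcon
    have := hm1 i
    rw [hbad _ hcon] at this
    exact absurd this (Finset.notMem_empty _)
  obtain ⟨v, hv1, hv2⟩ := Helper9.FX.ray m (fun i => by
    have := hm1 i
    rw [hN] at this
    rcases this with h | h
    · exact Or.inl (hRsub _ _ h)
    · exact Or.inr (hRsub _ _ h)) hm2
  refine hray ⟨v, hv1, fun k => ?_, fun k => ?_⟩
  · obtain ⟨i, hi, -⟩ := hv2 k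
    exact (hgood i).1 hi
  · obtain ⟨i, hi, hi'⟩ := hv2 k
    exact (hgood i).2.total hi hi'

theorem no_labelling_ray {P : Type*} [PartialOrder P] (r : ℕ) (s : P) (E : Set P)
    (hE : ∀ d ∈ E, d < s) (lam : (Fin r → P) → P)
    (h1 : ∀ δ, Rel δ δ → (∀ j, δ j ∈ insert s E) → lam δ ∈ E)
    (h2 : ∀ δ δ', Rel δ δ' → Rel δ δ → Rel δ' δ' → (∀ j, δ j ∈ insert s E) →
      (∀ j, δ' j ∈ insert s E) → lam δ ≤ lam δ' ∨ lam δ' ≤ lam δ)
    (h3 : ∀ δ, Rel δ δ → (∀ j, δ j ∈ insert s E) → ∀ M ∈ E, (∀ j, δ j ≤ M) → ¬ M ≤ lam δ)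
    (hray : ¬ ∃ v : ℕ → P, Function.Injective v ∧ (∀ k, v k ∈ E) ∧
      ∀ k, v k ≤ v (k + 1) ∨ v (k + 1) ≤ v k) : False := by
  classical
  obtain ⟨S, hS0, hS1, hS2⟩ := exists_subdiv P r
  -- the support of the label chain
  have hsupp : ∀ σ : Finset P, (σ : Set P) ⊆ insert s E → IsChain (· ≤ ·) (σ : Set P) →
      ∀ ν, N lam (S σ) ν ≠ 0 → ∃ l, Good σ l ∧ ν = (l.map lam).toFinset := by
    intro σ hσ hch ν hν
    obtain ⟨l, hl, e⟩ := N_support lam (S σ) ν hν
    exact ⟨l, hS2 σ hch l hl, e⟩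
  have h3' : ∀ σ : Finset P, (σ : Set P) ⊆ insert s E → IsChain (· ≤ ·) (σ : Set P) →
      ∀ ν, N lam (S σ) ν ≠ 0 → (ν : Set P) ⊆ E ∧ IsChain (· ≤ ·) (ν : Set P) := by
    intro σ hσ hch ν hν
    obtain ⟨l, hg, e⟩ := hsupp σ hσ hch ν hν
    subst e
    constructor
    · intro x hx
      simp only [List.coe_toFinset, Set.mem_ofPred_eq, List.mem_map] at hx
      obtain ⟨v, hv, rfl⟩ := hx
      exact h1 v (hg.2 v hv).1 (fun j => hσ ((hg.2 v hv).2 j))
    · intro x hx y hy _
      simp only [List.coe_toFinset, Set.mem_ofPred_eq, List.mem_map] at hx hy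
      obtain ⟨v, hv, rfl⟩ := hx
      obtain ⟨w, hw, rfl⟩ := hy
      have hcmp : ∀ l : List (Fin r → P), l.Pairwise Rel → (∀ v ∈ l, Rel v v ∧ ∀ j, v j ∈ σ) →
          ∀ v ∈ l, ∀ w ∈ l, lam v ≤ lam w ∨ lam w ≤ lam v := by
        intro l
        induction l with
        | nil => intro _ _ v hv; exact absurd hv (by simp)
        | cons u t ih =>
          intro hp hm v hv w hw
          rw [List.pairwise_cons] at hp
          rw [List.mem_cons] at hv hw
          rcases hv with rfl | hv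
          · rcases hw with rfl | hw
            · exact Or.inl le_rfl
            · have hmv := hm v (by simp)
              have hmw := hm w (by simp [hw])
              exact h2 v w (hp.1 w hw) hmv.1 hmw.1 (fun j => hσ (hmv.2 j))
                (fun j => hσ (hmw.2 j))
          · rcases hw with rfl | hw
            · have hmv := hm v (by simp [hv])
              have hmw := hm w (by simp)
              exact (h2 w v (hp.1 v hv) hmw.1 hmv.1 (fun j => hσ (hmw.2 j))
                (fun j => hσ (hmv.2 j))).symm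
            · exact ih hp.2 (fun x hx => hm x (by simp [hx])) v hv w hw
      exact hcmp l hg.1 hg.2 v hv w hw
  refine parity_ray E s hE (fun σ => N lam (S σ)) ?_ ?_ ?_ h3' hray
  · show N lam (S ∅) ∅ = 1
    rw [hS0]
    simp [N, nf]
  · intro σ hσ hch hne ν
    show dF (N lam (S σ)) ν = ∑ x ∈ σ, N lam (S (σ.erase x)) ν
    rw [← N_D, hS1, map_sum, Finsupp.finsetSum_apply]
  · intro μ hμ hch hne
    show N lam (S μ) μ = 0
    by_contra hcon
    have hμ' : (μ : Set P) ⊆ insert s E := hμ.trans (Set.subset_insert s E)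
    obtain ⟨l, hg, e⟩ := hsupp μ hμ' hch μ hcon
    obtain ⟨M, hM, hMm⟩ := μ.exists_maximal hne
    have hMx : ∀ x ∈ μ, x ≤ M := by
      intro x hx
      rcases hch.total hM hx with h | h
      · exact hMm hx h
      · exact h
    have hM' : M ∈ (l.map lam).toFinset := e ▸ hM
    simp only [List.mem_toFinset, List.mem_map] at hM'
    obtain ⟨v, hv, hvM⟩ := hM'
    exact h3 v (hg.2 v hv).1 (fun j => hμ' ((hg.2 v hv).2 j)) M (hμ hM)
      (fun j => hMx _ ((hg.2 v hv).2 j)) (le_of_eq hvM.symm)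

end Pool.Agent.Helper31.FX
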