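import Pool.Agent.Helper31.FX.NoLabel
import Pool.Agent.Helper31.FX.Label
import Pool.Agent.Helper31.FX.Labels

/-! Project FX: the theorem for posets, locally finite case. -/

set_option autoImplicit false

universe u

namespace Pool.Agent.Helper31.FX

/-- No label function on a locally finite set. -/
theorem no_labelling_loc {P : Type*} [PartialOrder P] (r : ℕ) (s : P) (E : Set P)
    (hE : ∀ d ∈ E, d < s) (lam : (Fin r → P) → P)
    (h1 : ∀ δ, Rel δ δ → (∀ j, δ j ∈ insert s E) → lam δ ∈ E)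
    (h2 : ∀ δ δ', Rel δ δ' → Rel δ δ → Rel δ' δ' → (∀ j, δ j ∈ insert s E) →
      (∀ j, δ' j ∈ insert s E) → lam δ ≤ lam δ' ∨ lam δ' ≤ lam δ)
    (h3 : ∀ δ, Rel δ δ → (∀ j, δ j ∈ insert s E) → ∀ M ∈ E, (∀ j, δ j ≤ M) → ¬ M ≤ lam δ)
    (hloc : ∀ d ∈ E, {e | e ∈ E ∧ (e ≤ d ∨ d ≤ e)}.Finite) : False := by
  classical
  have hfinl := labels_finite r s E hE lam h1 h2 hloc
  let B : Finset P := hfinl.toFinset
  have hBE : ∀ b ∈ B, b ∈ E := by
    intro b hb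
    rw [Set.Finite.mem_toFinset] at hb
    obtain ⟨δ, hδ, hδZ, rfl⟩ := hb
    exact h1 δ hδ hδZ
  have hsub : ∀ x, x ∈ insert s (B : Set P) → x ∈ insert s E := by
    rintro x (rfl | hx)
    · exact Or.inl rfl
    · exact Or.inr (hBE x hx)
  refine no_labelling r s B (fun b hb => hE b (hBE b hb)) lam ?_ ?_ ?_
  · intro δ hδ hδZ
    rw [Set.Finite.mem_toFinset]
    exact ⟨δ, hδ, fun j => hsub _ (hδZ j), rfl⟩
  · intro δ δ' hr h1 h1' hz1 hz2
    exact h2 δ δ' hr h1 h1' (fun j => hsub _ (hz1 j)) (fun j => hsub _ (hz2 j))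
  · intro δ hδ hδZ M hM hle
    exact h3 δ hδ (fun j => hsub _ (hδZ j)) M (hBE M hM) hle

theorem main_poset (P : Type u) [PartialOrder P]
    (hfin : ∃ n : ℕ, ∀ c : Finset P, IsChain (· ≤ ·) (c : Set P) → c.card ≤ n) (s : P)
    (hi : ∀ x : P, (∃ z : P, IsLUB ({s, x} : Set P) z) ∨ (∃ z : P, IsGLB ({s, x} : Set P) z))
    (E : Set P) (hE : ∀ d ∈ E, d < s)
    (hgr : ∀ m : P, m < s → ∃ e, IsGreatest {d | d ∈ E ∧ d ≤ m} e)
    (hj : ∀ x y m e : P, x < y → (¬ ∃ z : P, IsGLB ({s, x} : Set P) z) →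
      IsGLB ({s, y} : Set P) m → m < s → e ∈ E → e ≤ m → ∃ z : P, IsLUB ({e, x} : Set P) z)
    (hloc : ∀ d ∈ E, {e | e ∈ E ∧ (e ≤ d ∨ d ≤ e)}.Finite)
    (f : P → P) (hf : Monotone f) : ∃ x : P, f x = x := by
  by_contra hno
  obtain ⟨r, lam, h1, h2, h3⟩ := exists_label P hfin s hi E hE hgr hj f hf hno
  exact no_labelling_loc r s E hE lam h1 h2 h3 hloc

end Pool.Agent.Helper31.FX
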