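import Pool.Agent.Helper31.FX.Defs

/-! Project FX: exits of interleaved runs are comparable. -/

set_option autoImplicit false

namespace Pool.Agent.Helper31.FX

section Sweeps

/-- the tuple `δ`, continued by `s` -/
private def ext {P : Type*} {n : ℕ} (s : P) (δ : Fin n → P) (j : ℕ) : P :=
  if h : j < n then δ ⟨j, h⟩ else s

/-- the run `x_0 = δ_0`, `x_(j+1) = K δ_(j+1) x_j` -/
private def run {P : Type*} {n : ℕ} (s : P) (K : P → P → P) (δ : Fin n → P) : ℕ → P
  | 0 => ext s δ 0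
  | j + 1 => K (ext s δ (j + 1)) (run s K δ j)

private theorem ext_of_lt {P : Type*} {n : ℕ} (s : P) (δ : Fin n → P) {j : ℕ} (h : j < n) :
    ext s δ j = δ ⟨j, h⟩ := dif_pos h

private theorem ext_mem {P : Type*} {n : ℕ} {s : P} {Z : Set P} (hs : s ∈ Z) {δ : Fin n → P}
    (hδ : ∀ j, δ j ∈ Z) (j : ℕ) : ext s δ j ∈ Z := by
  unfold ext
  split_ifs with h
  · exact hδ _
  · exact hs

private theorem ext_mono {P : Type*} [PartialOrder P] {n : ℕ} {s : P} {Z : Set P}
    (hZ : ∀ d ∈ Z, d ≤ s) {δ : Fin n → P} (hδ : ∀ j, δ j ∈ Z) (hr : Rel δ δ) {j k : ℕ}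
    (hjk : j < k) : ext s δ j ≤ ext s δ k := by
  unfold ext
  split_ifs with h h' h'
  · exact hr.2 _ _ hjk
  · exact hZ _ (hδ _)
  · exact absurd (hjk.trans h') h
  · exact le_refl _

private theorem ext_le {P : Type*} [PartialOrder P] {n : ℕ} {s : P} {δ δ' : Fin n → P}
    (hr : Rel δ δ') (j : ℕ) : ext s δ j ≤ ext s δ' j := by
  unfold ext
  split_ifs with h
  · exact hr.1 _
  · exact le_refl _

private theorem ext_shift {P : Type*} [PartialOrder P] {n : ℕ} {s : P} {Z : Set P}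
    (hZ : ∀ d ∈ Z, d ≤ s) {δ δ' : Fin n → P} (hδ' : ∀ j, δ' j ∈ Z) (hr : Rel δ δ') (j : ℕ) :
    ext s δ' j ≤ ext s δ (j + 1) := by
  unfold ext
  split_ifs with h h' h'
  · exact hr.2 _ _ (Nat.lt_succ_self j)
  · exact hZ _ (hδ' _)
  · omega
  · exact le_refl _

theorem sweeps {P : Type*} [PartialOrder P] (n : ℕ)
    (hn : ∀ c : Finset P, IsChain (· ≤ ·) (c : Set P) → c.card ≤ n) (s : P) (A Z : Set P)
    (hs : s ∈ Z) (hZ : ∀ d ∈ Z, d ≤ s) (K : P → P → P)
    (hK : ∀ d ∈ Z, ∀ d' ∈ Z, ∀ x ∈ A, ∀ x' ∈ A, d ≤ d' → x ≤ x' → K d x ≤ K d' x')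
    (hd : ∀ d ∈ Z, ∀ x ∈ A, d ≤ K d x) (hx : ∀ d ∈ Z, ∀ x ∈ A, ¬ K d x ≤ x) :
    ∃ v : (Fin n → P) → P,
      (∀ δ, Rel δ δ → (∀ j, δ j ∈ Z) → v δ ∉ A ∧
        ∃ j, v δ = δ j ∨ ∃ z ∈ A, z ≤ v δ ∧ v δ = K (δ j) z) ∧
      ∀ δ δ', Rel δ δ' → Rel δ δ → Rel δ' δ' → (∀ j, δ j ∈ Z) → (∀ j, δ' j ∈ Z) →
        v δ ≤ v δ' ∨ v δ' ≤ v δ := by
  classical
  -- the run ascends
  have asc : ∀ δ : Fin n → P, Rel δ δ → (∀ j, δ j ∈ Z) → ∀ j, (∀ k ≤ j, run s K δ k ∈ A) →
      run s K δ j ≤ run s K δ (j + 1) := by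
    intro δ hr hδ j
    induction j with
    | zero =>
      intro h
      exact (ext_mono hZ hδ hr Nat.zero_lt_one).trans
        (hd _ (ext_mem hs hδ 1) _ (h 0 le_rfl))
    | succ j ih =>
      intro h
      exact hK _ (ext_mem hs hδ (j + 1)) _ (ext_mem hs hδ (j + 2)) _ (h j (Nat.le_succ j)) _
        (h (j + 1) le_rfl) (ext_mono hZ hδ hr (Nat.lt_succ_self _))
        (ih fun k hk => h k (hk.trans (Nat.le_succ j)))
  have mono : ∀ δ : Fin n → P, Rel δ δ → (∀ j, δ j ∈ Z) → ∀ j k, j ≤ k →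
      (∀ i < k, run s K δ i ∈ A) → run s K δ j ≤ run s K δ k := by
    intro δ hr hδ j k hjk
    induction k, hjk using Nat.le_induction with
    | base => intro _; exact le_refl _
    | succ k _ ih =>
      intro h
      exact (ih fun i hi => h i (hi.trans (Nat.lt_succ_self k))).trans
        (asc δ hr hδ k fun i hi => h i (Nat.lt_succ_of_le hi))
  -- the run leaves `A`
  have exit : ∀ δ : Fin n → P, Rel δ δ → (∀ j, δ j ∈ Z) → ∃ j < n, run s K δ j ∉ A := by
    intro δ hr hδ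
    by_contra hcon
    push Not at hcon
    have hlt : ∀ i k, i < k → k ≤ n → run s K δ i < run s K δ k := by
      intro i k hik hk
      obtain ⟨k, rfl⟩ : ∃ k', k = k' + 1 := ⟨k - 1, by omega⟩
      have h1 : run s K δ i ≤ run s K δ k :=
        mono δ hr hδ i k (Nat.le_of_lt_succ hik) fun j hj => hcon j (by omega)
      have h2 : run s K δ k ≤ run s K δ (k + 1) :=
        asc δ hr hδ k fun j hj => hcon j (by omega)
      have h3 : ¬ run s K δ (k + 1) ≤ run s K δ k :=
        hx _ (ext_mem hs hδ (k + 1)) _ (hcon k (by omega))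
      exact h1.trans_lt (lt_of_le_not_ge h2 h3)
    have hinj : Set.InjOn (run s K δ) (Finset.range (n + 1) : Set ℕ) := by
      intro i hi k hk he
      have hi' : i ≤ n := Nat.le_of_lt_succ (Finset.mem_range.1 (Finset.mem_coe.1 hi))
      have hk' : k ≤ n := Nat.le_of_lt_succ (Finset.mem_range.1 (Finset.mem_coe.1 hk))
      rcases lt_trichotomy i k with h | h | h
      · exact absurd he (hlt i k h hk').ne
      · exact h
      · exact absurd he (hlt k i h hi').ne'
    have hcard := hn ((Finset.range (n + 1)).image (run s K δ)) (by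
      intro a ha b hb _
      obtain ⟨i, hi, rfl⟩ := Finset.mem_image.1 (Finset.mem_coe.1 ha)
      obtain ⟨k, hk, rfl⟩ := Finset.mem_image.1 (Finset.mem_coe.1 hb)
      have hi' : i ≤ n := Nat.le_of_lt_succ (Finset.mem_range.1 hi)
      have hk' : k ≤ n := Nat.le_of_lt_succ (Finset.mem_range.1 hk)
      rcases le_total i k with h | h
      · exact Or.inl (mono δ hr hδ i k h fun j hj => hcon j (by omega))
      · exact Or.inr (mono δ hr hδ k i h fun j hj => hcon j (by omega)))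
    rw [Finset.card_image_of_injOn hinj, Finset.card_range] at hcard
    omega
  have key : ∀ δ : Fin n → P, Rel δ δ → (∀ j, δ j ∈ Z) →
      ∃ i < n, sInf {j | run s K δ j ∉ A} = i ∧ run s K δ i ∉ A ∧ ∀ j < i, run s K δ j ∈ A := by
    intro δ hr hδ
    obtain ⟨j, hj, hjA⟩ := exit δ hr hδ
    have hne : {j | run s K δ j ∉ A}.Nonempty := ⟨j, hjA⟩
    refine ⟨_, lt_of_le_of_lt (Nat.sInf_le hjA) hj, rfl, Nat.sInf_mem hne, fun k hk => ?_⟩
    by_contra h
    exact Nat.notMem_of_lt_sInf hk h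
  refine ⟨fun δ => run s K δ (sInf {j | run s K δ j ∉ A}), ?_, ?_⟩
  · intro δ hr hδ
    obtain ⟨i, hin, hi, hiA, hlt⟩ := key δ hr hδ
    simp only [hi]
    refine ⟨hiA, ⟨i, hin⟩, ?_⟩
    rcases i with _ | i
    · left
      exact ext_of_lt s δ hin
    · right
      refine ⟨run s K δ i, hlt i (Nat.lt_succ_self i), ?_, ?_⟩
      · exact asc δ hr hδ i fun k hk => hlt k (Nat.lt_succ_of_le hk)
      · change K (ext s δ (i + 1)) _ = _
        rw [ext_of_lt s δ hin]
  · intro δ δ' hrr hr hr' hδ hδ'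
    obtain ⟨i, hin, hi, hiA, hlt⟩ := key δ hr hδ
    obtain ⟨i', hin', hi', hiA', hlt'⟩ := key δ' hr' hδ'
    simp only [hi, hi']
    -- `x_j ≤ x'_j` while both runs are in `A`
    have c1 : ∀ j, (∀ k < j, run s K δ k ∈ A) → (∀ k < j, run s K δ' k ∈ A) →
        run s K δ j ≤ run s K δ' j := by
      intro j
      induction j with
      | zero => intro _ _; exact ext_le hrr 0
      | succ j ih =>
        intro h h'
        exact hK _ (ext_mem hs hδ _) _ (ext_mem hs hδ' _) _ (h j (Nat.lt_succ_self j)) _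
          (h' j (Nat.lt_succ_self j)) (ext_le hrr _)
          (ih (fun k hk => h k (hk.trans (Nat.lt_succ_self j)))
            (fun k hk => h' k (hk.trans (Nat.lt_succ_self j))))
    -- `x'_j ≤ x_(j+1)`
    have c2 : ∀ j, (∀ k ≤ j, run s K δ k ∈ A) → (∀ k < j, run s K δ' k ∈ A) →
        run s K δ' j ≤ run s K δ (j + 1) := by
      intro j
      induction j with
      | zero =>
        intro h _
        exact (ext_shift hZ hδ' hrr 0).trans (hd _ (ext_mem hs hδ 1) _ (h 0 le_rfl))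
      | succ j ih =>
        intro h h'
        exact hK _ (ext_mem hs hδ' _) _ (ext_mem hs hδ _) _ (h' j (Nat.lt_succ_self j)) _
          (h (j + 1) le_rfl) (ext_shift hZ hδ' hrr _)
          (ih (fun k hk => h k (hk.trans (Nat.le_succ j)))
            (fun k hk => h' k (hk.trans (Nat.lt_succ_self j))))
    rcases le_or_gt i i' with h | h
    · left
      exact (c1 i hlt fun k hk => hlt' k (lt_of_lt_of_le hk h)).trans
        (mono δ' hr' hδ' i i' h hlt')
    · right
      exact (c2 i' (fun k hk => hlt k (lt_of_le_of_lt hk h)) hlt').trans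
        (mono δ hr hδ (i' + 1) i h hlt)

end Sweeps

end Pool.Agent.Helper31.FX
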